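import Pool.Agent.X243.Gen.Aff
import Pool.Agent.N181.T3.Den

/-!
The linear forms `q`, `r`, `q - ξ r` for 100% of the pairs `(q, r)`, in all characteristics, uniformly
in the constants `ξ` with a common denominator.
-/

set_option autoImplicit false
set_option linter.all false

open Polynomial
open scoped Classical

namespace Pool.Agent.N181.P3

open Pool.Agent.X243.Tate Pool.Agent.X243.Sol Pool.Agent.X243.Gen Pool.Agent.Y160.T3

/-- The maximal ideals with large residue fields which do not contain `c`. -/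
def Zq (R : Type) [CommRing R] (B : ℕ) (c : R) : Set (Ideal R) :=
  {m | m.IsMaximal ∧ Finite (R ⧸ m) ∧ B ≤ Nat.card (R ⧸ m) ∧ c ∉ m}

theorem Zq_inf (R : Type) [CommRing R] [IsDomain R] [Algebra.FiniteType ℤ R] (hR : ¬ IsField R)
    (B : ℕ) {c₀ : R} (h3 : c₀ ≠ 0) :
    (Zq R B c₀).Infinite := by
  intro hfin
  haveI := jacobson_int
  haveI : IsJacobsonRing R := isJacobsonRing_of_finiteType (A := ℤ)
  haveI : Infinite R := by
    by_contra h
    rw [not_infinite_iff_finite] at h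
    exact hR (Finite.isField_of_domain R)
  -- an element in all the ideals with small residue fields
  obtain ⟨b, hb⟩ : ∃ b : R, ∏ q ∈ Finset.Ico 2 B, (b ^ q - b) ≠ 0 := by
    obtain ⟨P, hP⟩ : ∃ P : Polynomial R, P = ∏ q ∈ Finset.Ico 2 B,
      (Polynomial.X ^ q - Polynomial.X) := ⟨_, rfl⟩
    have hP0 : P ≠ 0 := by
      rw [hP, Finset.prod_ne_zero_iff]
      intro q hq h0
      have hq2 := (Finset.mem_Ico.1 hq).1
      have h1 := congrArg (fun f : Polynomial R => f.coeff q) h0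
      simp only [Polynomial.coeff_sub, Polynomial.coeff_X_pow_self, Polynomial.coeff_zero] at h1
      rw [Polynomial.coeff_X_of_ne_one (by omega), sub_zero] at h1
      exact one_ne_zero h1
    obtain ⟨b, hb⟩ := Infinite.exists_notMem_finset P.roots.toFinset
    refine ⟨b, fun h0 => hb ?_⟩
    rw [Multiset.mem_toFinset, Polynomial.mem_roots hP0, Polynomial.IsRoot.def, hP,
      Polynomial.eval_prod]
    simp only [Polynomial.eval_sub, Polynomial.eval_pow, Polynomial.eval_X]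
    exact h0
  have hne : ∀ m ∈ Zq R B c₀, ∃ x ∈ m, x ≠ 0 := by
    intro m hm
    have h1 : m ≠ ⊥ := by
      rintro rfl
      exact hR (Ring.isField_iff_maximal_bot.2 hm.1)
    obtain ⟨x, hx, hx0⟩ := Submodule.exists_mem_ne_zero_of_ne_bot h1
    exact ⟨x, hx, hx0⟩
  choose! x hx hx0 using hne
  obtain ⟨c, hc⟩ : ∃ c : R, c = c₀ * (∏ q ∈ Finset.Ico 2 B, (b ^ q - b)) *
    ∏ m ∈ hfin.toFinset, x m := ⟨_, rfl⟩
  have hc0 : c ≠ 0 := by
    rw [hc]
    refine mul_ne_zero (mul_ne_zero h3 hb) ?_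
    rw [Finset.prod_ne_zero_iff]
    intro m hm
    exact hx0 m (hfin.mem_toFinset.1 hm)
  apply hc0
  have hall : ∀ m : Ideal R, m.IsMaximal → c ∈ m := by
    intro m hm
    haveI := hm
    haveI : Finite (R ⧸ m) := residue_finite R m
    by_cases h3 : c₀ ∈ m
    · rw [hc]
      exact m.mul_mem_right _ (m.mul_mem_right _ h3)
    by_cases h4 : B ≤ Nat.card (R ⧸ m)
    · have h5 : m ∈ Zq R B c₀ := ⟨hm, inferInstance, h4, h3⟩
      rw [hc]
      refine m.mul_mem_left _ ?_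
      rw [← Finset.mul_prod_erase _ _ (hfin.mem_toFinset.2 h5)]
      exact m.mul_mem_right _ (hx m h5)
    · rw [hc]
      refine m.mul_mem_right _ (m.mul_mem_left _ ?_)
      letI : Field (R ⧸ m) := Ideal.Quotient.field m
      letI := Fintype.ofFinite (R ⧸ m)
      have h5 : Nat.card (R ⧸ m) ∈ Finset.Ico 2 B := by
        rw [Finset.mem_Ico]
        refine ⟨?_, by omega⟩
        rw [Nat.card_eq_fintype_card]
        exact Fintype.one_lt_card
      rw [← Finset.mul_prod_erase _ _ h5]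
      refine m.mul_mem_right _ ?_
      rw [← Ideal.Quotient.eq, map_pow, Nat.card_eq_fintype_card, FiniteField.pow_card]
  have hJ : IsJacobsonRing R := inferInstance
  have hbot : (⊥ : Ideal R).jacobson = ⊥ := hJ.out Ideal.isRadical_bot
  have h6 : c ∈ (⊥ : Ideal R).jacobson := by
    rw [Ideal.jacobson, Ideal.mem_sInf]
    rintro m ⟨-, hm⟩
    exact hall m hm
  rw [hbot] at h6
  exact h6

section event

variable {R : Type} [CommRing R] {I : Type}

theorem Lev_card' {N : ℕ} (hN : 3 ≤ N) (l m : I → R) (i₀ i₁ : I)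
    (s : Option (I × Fin 3)) {p : Ideal R} (hm : p.IsMaximal) (hfin : Finite (R ⧸ p))
    (hcard : 2 * N + 2 ≤ Nat.card (R ⧸ p))
    (h1 : ∀ i, Ideal.Quotient.mk p (l i) ≠ 0 ∨ Ideal.Quotient.mk p (m i) ≠ 0)
    (h2 : Ideal.Quotient.mk p (l i₀) * Ideal.Quotient.mk p (m i₁) -
        Ideal.Quotient.mk p (l i₁) * Ideal.Quotient.mk p (m i₀) ≠ 0) :
    Nat.card (R ⧸ p) ^ (2 * N + 2) ≤ (DD N * DD N) * (Lev N l m i₀ i₁ s p).ncard := by
  haveI := hm
  haveI : p.IsPrime := hm.isPrime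
  letI : Field (R ⧸ p) := Ideal.Quotient.field p
  haveI : Finite (R ⧸ p) := hfin
  haveI := Fintype.ofFinite (R ⧸ p)
  obtain ⟨q, hqd⟩ : ∃ q, q = Nat.card (R ⧸ p) := ⟨_, rfl⟩
  have hqF : q = Fintype.card (R ⧸ p) := by rw [hqd, Nat.card_eq_fintype_card]
  have hq : 2 * N + 2 ≤ q := by rw [hqd]; exact hcard
  have hDD : 0 < DD N := by
    have := D3_pos N
    unfold DD
    positivity
  have h3 : ∀ s, q ^ (N + 1) ≤ DD N * (Ev (R ⧸ p) N s).ncard := by
    intro s
    rw [hqF]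
    exact Ev_card hN (by rw [← hqF]; exact hq) s
  rw [← hqd]
  rcases s with _ | ⟨i, t⟩
  · have h4 := lin_two h2 (Ev (R ⧸ p) N 0) (Ev (R ⧸ p) N 1)
    calc q ^ (2 * N + 2) = q ^ (N + 1) * q ^ (N + 1) := by ring
      _ ≤ (DD N * (Ev (R ⧸ p) N 0).ncard) * (DD N * (Ev (R ⧸ p) N 1).ncard) :=
        Nat.mul_le_mul (h3 0) (h3 1)
      _ = DD N * DD N * ((Ev (R ⧸ p) N 0).ncard * (Ev (R ⧸ p) N 1).ncard) := by ring
      _ ≤ _ := Nat.mul_le_mul_left _ h4
  · have h4 := lin_one (h1 i) (Ev (R ⧸ p) N t)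
    have h5 : (Lev N l m i₀ i₁ (some (i, t)) p).ncard = q ^ (N + 1) * (Ev (R ⧸ p) N t).ncard := by
      rw [hqd]
      exact h4
    rw [h5]
    calc q ^ (2 * N + 2) = q ^ (N + 1) * q ^ (N + 1) := by ring
      _ ≤ q ^ (N + 1) * (DD N * (Ev (R ⧸ p) N t).ncard) := Nat.mul_le_mul_left _ (h3 t)
      _ = DD N * (q ^ (N + 1) * (Ev (R ⧸ p) N t).ncard) := by ring
      _ ≤ DD N * DD N * (q ^ (N + 1) * (Ev (R ⧸ p) N t).ncard) :=
        Nat.mul_le_mul_right _ (Nat.le_mul_of_pos_right _ hDD)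

/-- The index set of the forms `q`, `r`, `D q - ρ_i r`. -/
abbrev Idx (μ : ℕ) : Type := Option (Option (Fin μ))

/-- The coefficients of `q`. -/
def cl {μ : ℕ} (D : R) : Idx μ → R
  | none => 1
  | some none => 0
  | some (some _) => D

/-- The coefficients of `r`. -/
def cm {μ : ℕ} (ρ : Fin μ → R) : Idx μ → R
  | none => 0
  | some none => 1
  | some (some i) => -ρ i

theorem cl_ne {μ : ℕ} {D : R} (ρ : Fin μ → R) {p : Ideal R} (hp : p.IsMaximal) (hD : D ∉ p)
    (i : Idx μ) : Ideal.Quotient.mk p (cl D i) ≠ 0 ∨ Ideal.Quotient.mk p (cm ρ i) ≠ 0 := by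
  haveI := hp
  haveI : Nontrivial (R ⧸ p) := Ideal.Quotient.nontrivial_iff.2 hp.ne_top
  rcases i with _ | _ | i
  · left
    show Ideal.Quotient.mk p 1 ≠ 0
    rw [map_one]
    exact one_ne_zero
  · right
    show Ideal.Quotient.mk p 1 ≠ 0
    rw [map_one]
    exact one_ne_zero
  · left
    show Ideal.Quotient.mk p D ≠ 0
    rw [Ne, Ideal.Quotient.eq_zero_iff_mem]
    exact hD

theorem cl_det {μ : ℕ} (D : R) (ρ : Fin μ → R) {p : Ideal R} (hp : p.IsMaximal) :
    Ideal.Quotient.mk p (cl (μ := μ) D none) * Ideal.Quotient.mk p (cm ρ (some none)) -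
      Ideal.Quotient.mk p (cl (μ := μ) D (some none)) * Ideal.Quotient.mk p (cm ρ none) ≠ 0 := by
  haveI := hp
  haveI : Nontrivial (R ⧸ p) := Ideal.Quotient.nontrivial_iff.2 hp.ne_top
  show Ideal.Quotient.mk p 1 * Ideal.Quotient.mk p 1 -
    Ideal.Quotient.mk p 0 * Ideal.Quotient.mk p 0 ≠ 0
  rw [map_one, map_zero, mul_one, mul_zero, sub_zero]
  exact one_ne_zero

end event

section main

variable {R k : Type} [CommRing R] [IsDomain R] [IsIntegrallyClosed R] [IsNoetherianRing R]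
  [Field k] [Algebra R k] [IsFractionRing R k]

variable (R) in
theorem densQ [Algebra.FiniteType ℤ R] (hR : ¬ IsField R) {μ N : ℕ} (hN : 3 ≤ N) {D : R}
    (hD : D ≠ 0) (η : ℝ) (hη : 0 < η) :
    ∃ M : Ideal R, Finite (R ⧸ M) ∧ ∀ ρ : Fin μ → R,
      (1 - η) * (Nat.card (R ⧸ M) : ℝ) ^ (Fintype.card (Fin (N + 1) ⊕ Fin (N + 1))) ≤
      (({x : Fin (N + 1) ⊕ Fin (N + 1) → R ⧸ M | ∀ s : Option (Idx μ × Fin 3),
        ∃ p ∈ Zq R (2 * N + 2) D, ∀ y : Fin (N + 1) ⊕ Fin (N + 1) → R,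
          (∀ j, Ideal.Quotient.mk M (y j) = x j) →
          (fun j => Ideal.Quotient.mk p (y j)) ∈
            Lev N (cl D) (cm ρ) none (some none) s p}).ncard : ℝ) := by
  have hDD : 0 < DD N := by
    have := D3_pos N
    unfold DD
    positivity
  have hD' : (0 : ℝ) < ((DD N * DD N : ℕ) : ℝ) := by
    have : 0 < DD N * DD N := Nat.mul_pos hDD hDD
    exact_mod_cast this
  obtain ⟨M, hM, h⟩ := densityU (Fin (N + 1) ⊕ Fin (N + 1)) (Option (Idx μ × Fin 3))
    (Zq R (2 * N + 2) D) (Zq_inf R hR _ hD) (fun p hp => hp.1) (fun p hp => hp.2.1)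
    (c := 1 / ((DD N * DD N : ℕ) : ℝ)) (by positivity) η hη
  refine ⟨M, hM, fun ρ => h (fun s p => Lev N (cl D) (cm ρ) none (some none) s p) ?_⟩
  intro s p hp
  have h1 := Lev_card' hN (cl D) (cm ρ) none (some none) s hp.1 hp.2.1 hp.2.2.1
    (cl_ne ρ hp.1 hp.2.2.2) (cl_det D ρ hp.1)
  have hc : Fintype.card (Fin (N + 1) ⊕ Fin (N + 1)) = 2 * N + 2 := by
    rw [Fintype.card_sum, Fintype.card_fin]
    omega
  rw [hc, one_div, inv_mul_le_iff₀ hD']
  exact_mod_cast h1

theorem evQ {N B : ℕ} {D : R} (hN : 3 ≤ N) {G : R[X]} (hG : G.natDegree ≤ N)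
    (hev : ∀ t : Fin 3, ∃ p ∈ Zq R B D, ∃ w ∈ Ev (R ⧸ p) N t,
      bF w = G.map (Ideal.Quotient.mk p)) :
    FF N (G.map (algebraMap R k)) := by
  obtain ⟨p0, z0, w0, e0, g0⟩ := hev 0
  obtain ⟨p1, z1, w1, e1, g1⟩ := hev 1
  obtain ⟨p2, z2, w2, e2, g2⟩ := hev 2
  have f0 : I1 N (bF w0) := e0
  have f1 : I2 N (bF w1) := e1
  have f2 : I3 N (bF w2) := e2
  rw [g0] at f0
  rw [g1] at f1
  rw [g2] at f2
  haveI := z0.1
  haveI := z1.1
  haveI := z2.1
  haveI := z0.2.1
  haveI := z1.2.1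
  haveI := z2.2.1
  exact gen_full hN hG f0 f1 f2

theorem linQ {μ N B : ℕ} {D : R} {ρ : Fin μ → R} (hN : 3 ≤ N)
    {y : Fin (N + 1) ⊕ Fin (N + 1) → R}
    (h : ∀ s : Option (Idx μ × Fin 3), ∃ p ∈ Zq R B D,
      (fun j => Ideal.Quotient.mk p (y j)) ∈ Lev N (cl D) (cm ρ) none (some none) s p) (q r : k[X])
    (hq : q = (bF (y ∘ Sum.inl)).map (algebraMap R k))
    (hr : r = (bF (y ∘ Sum.inr)).map (algebraMap R k)) :
    FF N q ∧ FF N r ∧ (∀ i, FF N (C (algebraMap R k D) * q - C (algebraMap R k (ρ i)) * r)) ∧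
      IsCoprime q r := by
  obtain ⟨l, hl⟩ : ∃ l : Idx μ → R, l = cl D := ⟨_, rfl⟩
  obtain ⟨m, hm⟩ : ∃ m : Idx μ → R, m = cm ρ := ⟨_, rfl⟩
  rw [← hl, ← hm] at h
  have hdeg : ∀ i, (C (l i) * bF (y ∘ Sum.inl) + C (m i) * bF (y ∘ Sum.inr)).natDegree ≤ N := by
    intro i
    refine (natDegree_add_le _ _).trans (max_le ?_ ?_)
    · exact (natDegree_C_mul_le _ _).trans (bF_nd _)
    · exact (natDegree_C_mul_le _ _).trans (bF_nd _)
  have hmap : ∀ i, (C (l i) * bF (y ∘ Sum.inl) + C (m i) * bF (y ∘ Sum.inr)).map (algebraMap R k) =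
      C (algebraMap R k (l i)) * q + C (algebraMap R k (m i)) * r := by
    intro i
    rw [hq, hr, Polynomial.map_add, Polynomial.map_mul, Polynomial.map_mul, map_C, map_C]
  have key : ∀ i, FF N (C (algebraMap R k (l i)) * q + C (algebraMap R k (m i)) * r) := by
    intro i
    rw [← hmap]
    refine evQ (B := B) (D := D) hN (hdeg i) (fun t => ?_)
    obtain ⟨p, hp, e⟩ := h (some (i, t))
    exact ⟨p, hp, _, e, (lf_map (Ideal.Quotient.mk p) l m i y).symm⟩
  have kq : FF N q := by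
    have := key none
    have e : C (algebraMap R k (l none)) * q + C (algebraMap R k (m none)) * r = q := by
      rw [hl, hm]
      show C (algebraMap R k 1) * q + C (algebraMap R k 0) * r = q
      rw [map_one, map_zero, C_1, C_0]
      ring
    rwa [e] at this
  have kr : FF N r := by
    have := key (some none)
    have e : C (algebraMap R k (l (some none))) * q + C (algebraMap R k (m (some none))) * r =
        r := by
      rw [hl, hm]
      show C (algebraMap R k 0) * q + C (algebraMap R k 1) * r = r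
      rw [map_one, map_zero, C_1, C_0]
      ring
    rwa [e] at this
  refine ⟨kq, kr, fun i => ?_, ?_⟩
  · have := key (some (some i))
    have e : C (algebraMap R k (l (some (some i)))) * q +
        C (algebraMap R k (m (some (some i)))) * r =
        C (algebraMap R k D) * q - C (algebraMap R k (ρ i)) * r := by
      rw [hl, hm]
      show C (algebraMap R k D) * q + C (algebraMap R k (-ρ i)) * r = _
      rw [map_neg, C_neg]
      ring
    rwa [e] at this
  · obtain ⟨p, hp, e0, e1⟩ := h none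
    haveI := hp.1
    have e0' : I1 N ((C (l none) * bF (y ∘ Sum.inl) + C (m none) * bF (y ∘ Sum.inr)).map
        (Ideal.Quotient.mk p)) := by
      rw [lf_map]
      exact e0
    have e1' : I2 N ((C (l (some none)) * bF (y ∘ Sum.inl) +
        C (m (some none)) * bF (y ∘ Sum.inr)).map (Ideal.Quotient.mk p)) := by
      rw [lf_map]
      exact e1
    have hco := cop_of_redG (k := k) hN (hdeg none) (hdeg (some none)) e0' e1'
      (by rw [hmap]; exact (key none).1) (by rw [hmap]; exact (key (some none)).1)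
    rw [hmap, hmap] at hco
    obtain ⟨u, v, huv⟩ := hco
    refine ⟨u * C (algebraMap R k (l none)) + v * C (algebraMap R k (l (some none))),
      u * C (algebraMap R k (m none)) + v * C (algebraMap R k (m (some none))), ?_⟩
    rw [← huv]
    ring

variable (R) in
/-- The polynomials `D h - ρ_i` for variable `h`. -/
theorem densP [Algebra.FiniteType ℤ R] (hR : ¬ IsField R) {μ N : ℕ} (hN : 3 ≤ N) {D : R}
    (hD : D ≠ 0) (η : ℝ) (hη : 0 < η) :
    ∃ M : Ideal R, Finite (R ⧸ M) ∧ ∀ ρ : Fin μ → R,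
      (1 - η) * (Nat.card (R ⧸ M) : ℝ) ^ (Fintype.card (Fin (N + 1))) ≤
      (({x : Fin (N + 1) → R ⧸ M | ∀ i : Fin μ × Fin 3,
        ∃ p ∈ Zq R (2 * N + 2) D, ∀ y : Fin (N + 1) → R,
          (∀ j, Ideal.Quotient.mk M (y j) = x j) →
          (fun j => Ideal.Quotient.mk p (y j)) ∈
            Aev N (fun _ => D) (fun i j => if j = 0 then -(ρ i) else 0) i p}).ncard : ℝ) := by
  have hDD : 0 < DD N := by
    have := D3_pos N
    unfold DD
    positivity
  have hD' : (0 : ℝ) < ((DD N : ℕ) : ℝ) := by exact_mod_cast hDD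
  obtain ⟨M, hM, h⟩ := densityU (Fin (N + 1)) (Fin μ × Fin 3) (Zq R (2 * N + 2) D)
    (Zq_inf R hR _ hD) (fun p hp => hp.1) (fun p hp => hp.2.1)
    (c := 1 / ((DD N : ℕ) : ℝ)) (by positivity) η hη
  refine ⟨M, hM, fun ρ => h (fun i p =>
    Aev N (fun _ => D) (fun i j => if j = 0 then -(ρ i) else 0) i p) ?_⟩
  intro i p hp
  haveI := hp.1
  haveI : p.IsPrime := hp.1.isPrime
  letI : Field (R ⧸ p) := Ideal.Quotient.field p
  haveI : Finite (R ⧸ p) := hp.2.1
  haveI := Fintype.ofFinite (R ⧸ p)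
  have hl : Ideal.Quotient.mk p D ≠ 0 := by
    rw [Ne, Ideal.Quotient.eq_zero_iff_mem]
    exact hp.2.2.2
  have h1 : (Aev N (fun _ : Fin μ => D) (fun i j => if j = 0 then -(ρ i) else 0) i p).ncard =
      (Ev (R ⧸ p) N i.2).ncard :=
    aff_card hl (fun j => Ideal.Quotient.mk p (if j = 0 then -(ρ i.1) else 0)) (Ev (R ⧸ p) N i.2)
  have hq := hp.2.2.1
  have h2 : Nat.card (R ⧸ p) ^ (N + 1) ≤ DD N * (Ev (R ⧸ p) N i.2).ncard := by
    rw [Nat.card_eq_fintype_card] at hq ⊢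
    exact Ev_card hN hq i.2
  rw [← h1] at h2
  rw [Fintype.card_fin, one_div, inv_mul_le_iff₀ hD']
  exact_mod_cast h2

omit [IsDomain R] [IsIntegrallyClosed R] [IsNoetherianRing R] in
theorem bF_cst {N : ℕ} (c : R) : bF (fun j : Fin (N + 1) => if j = 0 then c else 0) = C c := by
  unfold bF
  rw [Finset.sum_eq_single (0 : Fin (N + 1))]
  · beta_reduce
    rw [if_pos rfl, Fin.val_zero, pow_zero, mul_one]
  · intro j _ hj
    beta_reduce
    rw [if_neg hj, C_0, zero_mul]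
  · intro h
    exact absurd (Finset.mem_univ _) h

theorem affQ {μ N B : ℕ} {D : R} {ρ : Fin μ → R} (hN : 3 ≤ N) {y : Fin (N + 1) → R}
    (h : ∀ i : Fin μ × Fin 3, ∃ p ∈ Zq R B D, (fun j => Ideal.Quotient.mk p (y j)) ∈
      Aev N (fun _ => D) (fun i j => if j = 0 then -(ρ i) else 0) i p)
    (i : Fin μ) {q : k[X]} (hq : q = (bF y).map (algebraMap R k)) :
    FF N (C (algebraMap R k D) * q - C (algebraMap R k (ρ i))) := by
  have hdeg : (C D * bF y + bF (fun j : Fin (N + 1) => if j = 0 then -(ρ i) else 0)).natDegree ≤ N := by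
    refine (natDegree_add_le _ _).trans (max_le ?_ (bF_nd _))
    exact (natDegree_C_mul_le _ _).trans (bF_nd _)
  have hmap : (C D * bF y + bF (fun j : Fin (N + 1) => if j = 0 then -(ρ i) else 0)).map (algebraMap R k) =
      C (algebraMap R k D) * q - C (algebraMap R k (ρ i)) := by
    rw [hq, Polynomial.map_add, Polynomial.map_mul, map_C, bF_cst, map_C, map_neg, C_neg]
    ring
  rw [← hmap]
  refine evQ (B := B) (D := D) hN hdeg (fun t => ?_)
  obtain ⟨p, hp, e⟩ := h (i, t)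
  refine ⟨p, hp, _, e, ?_⟩
  rw [Polynomial.map_add, Polynomial.map_mul, map_C, bF_map, bF_map]
  rw [bF, bF, bF, Finset.mul_sum, ← Finset.sum_add_distrib]
  refine Finset.sum_congr rfl fun j _ => ?_
  rw [C_add, C_mul]
  ring

end main

end Pool.Agent.N181.P3
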