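import Pool.Agent.N181.P3.Points
import Pool.Agent.N181.P3.Dens
import Pool.Agent.N181.T3.Alt

/-!
Pullbacks by rational functions whose forms have full symmetric Galois groups.
-/

set_option autoImplicit false
set_option linter.all false

open Polynomial IsDedekindDomain WeierstrassCurve WeierstrassCurve.Affine
open scoped Classical

namespace Pool.Agent.N181.P3

open Pool.Agent.N181.T3
open Pool.Agent.X243.Gen (FF solvM solvM_normal mem_solvM solvM_not_splits pb pb_sum exists_psi)
open Pool.Agent.TH115.GD (Pt act incl rs ak IsTower LocallyTrivial Sep)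

section

variable {k K₀ : Type} [Field k] [Field K₀] [Algebra k[X] K₀] {m n : ℕ} {a b : k[X]}

/-- The place at infinity of the base is a place of bad reduction (for the model of degree `m`). -/
def InfBad (m : ℕ) (a b : k[X]) : Prop := b.natDegree ≠ 3 * m ∨ (a ^ 3 - 27 * b).natDegree ≠ 3 * m

/-- The forms of the places of bad reduction: the polynomials `q - ξ r` for the roots `ξ` of the
discriminant, and `r` if the place at infinity is bad and `r` is not `1`. -/
def Form (m : ℕ) (a b q r : k[X]) (f : k[X]) : Prop :=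
  (∃ ξ, (b * (a ^ 3 - 27 * b)).IsRoot ξ ∧ f = q - C ξ * r) ∨ (InfBad m a b ∧ r ≠ 1 ∧ f = r)

theorem fib_ext {q r : k[X]} (h5 : 5 ≤ n) (hco : IsCoprime q r) (hq : q.natDegree = n)
    (hr : r.natDegree ≤ n) (hf : ∀ f, Form m a b q r f → FF n f)
    {L L' : Type} [Field L] [Algebra k L] [Field L'] [Algebra L L'] [Algebra k L']
    [IsScalarTower k L L'] [IsSepClosure L L'] (M : IntermediateField k L') [Normal k M]
    (hM : ∀ x : L, IsSeparable k x → algebraMap L L' x ∈ M)
    (hns : ∀ f, Form m a b q r f → ¬ (f.map (algebraMap k M)).Splits) :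
    Fib (algebraMap k L) L' (q.map (algebraMap k L)) (r.map (algebraMap k L)) m n a b := by
  have key : ∀ f, Form m a b q r f → (f.map (algebraMap k L)).Separable ∧
      Stays L' (f.map (algebraMap k L)) ∧ (f.map (algebraMap k L)).natDegree = n := by
    intro f h
    obtain ⟨f1, f2, f3⟩ := hf f h
    exact ⟨f2.map, stays_gen f2 (by rw [f1.2]; exact h5) f3 L L' M hM (hns f h),
      by rw [natDegree_map, f1.2]⟩
  refine ⟨hco.map (mapRingHom (algebraMap k L)), ?_, ?_, ?_, ?_, ?_⟩
  · rw [natDegree_map, hq]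
    omega
  · rw [natDegree_map, hq]
  · rw [natDegree_map]
    exact hr
  · intro ξ hξ
    have e : (q - C ξ * r).map (algebraMap k L) =
        q.map (algebraMap k L) - C (algebraMap k L ξ) * r.map (algebraMap k L) := by
      rw [Polynomial.map_sub, Polynomial.map_mul, map_C]
    rw [← e]
    exact key _ (Or.inl ⟨ξ, hξ, rfl⟩)
  · by_cases h1 : r = 1
    · left
      rw [h1, Polynomial.map_one]
    by_cases h : InfBad m a b
    · right; right
      exact key _ (Or.inr ⟨h, h1, rfl⟩)
    · right; left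
      unfold InfBad at h
      push Not at h
      exact h

end

section holds

variable {k K₀ : Type} [Field k] [Field K₀] [Algebra k[X] K₀] [IsFractionRing k[X] K₀]
  {m n : ℕ} {a b : k[X]}

/-- A subgroup which generates modulo `3` contains the multiples by a number prime to `3`. -/
theorem three_exponent {A : Type} [AddCommGroup A] (H : AddSubgroup A) (hfg : AddGroup.FG A)
    (h : ∀ P : A, ∃ Q P1 : A, P1 ∈ H ∧ P = 3 • Q + P1) :
    ∃ r : ℕ, ¬ 3 ∣ r ∧ ∀ P : A, r • P ∈ H := by
  haveI : AddGroup.FG (A ⧸ H) := QuotientAddGroup.fg H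
  haveI : Module.Finite ℤ (A ⧸ H) := Module.Finite.iff_addGroup_fg.2 inferInstance
  obtain ⟨r, hr, hr'⟩ := Submodule.exists_sub_one_mem_and_smul_eq_zero_of_fg_of_le_smul
    (Ideal.span {(3 : ℤ)}) (⊤ : Submodule ℤ (A ⧸ H)) Module.Finite.fg_top (by
      intro x _
      obtain ⟨P, rfl⟩ := QuotientAddGroup.mk_surjective x
      obtain ⟨Q, P1, h1, e⟩ := h P
      have e2 : ((P : A) : A ⧸ H) = (3 : ℤ) • ((Q : A) : A ⧸ H) := by
        rw [e, QuotientAddGroup.mk_add, (QuotientAddGroup.eq_zero_iff P1).2 h1, add_zero,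
          ← natCast_zsmul, QuotientAddGroup.mk_zsmul]
        rfl
      rw [e2]
      exact Submodule.smul_mem_smul (Ideal.mem_span_singleton_self _) trivial)
  refine ⟨r.natAbs, ?_, fun P => ?_⟩
  · intro h3
    obtain ⟨c, hc⟩ := Ideal.mem_span_singleton'.1 hr
    have h4 : (3 : ℤ) ∣ r := Int.natCast_dvd.2 h3
    omega
  · have h1 := hr' ((P : A) : A ⧸ H) trivial
    have h3 : (((r • P : A)) : A ⧸ H) = 0 := by
      rw [← h1]
      rfl
    have h4 := (QuotientAddGroup.eq_zero_iff _).1 h3
    rcases Int.natAbs_eq r with h5 | h5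
    · rw [h5, natCast_zsmul] at h4
      exact h4
    · rw [h5, neg_smul, natCast_zsmul] at h4
      exact neg_mem_iff.1 h4

/-- The generic fibre of the pullback by `q / r` over `L`. -/
noncomputable abbrev EQ {k : Type} [Field k] (L K : Type) [Field L] [Algebra k L] [Field K]
    [Algebra L[X] K] (m : ℕ) (a b q r : k[X]) : WeierstrassCurve K :=
  crv3 (algebraMap L[X] K ((hb q r m a).map (algebraMap k L)))
    (algebraMap L[X] K ((hb q r (3 * m) b).map (algebraMap k L)))

/-- The base as a curve over `K₀ = k(s)`. -/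
noncomputable abbrev E0 {k : Type} [Field k] (K₀ : Type) [Field K₀] [Algebra k[X] K₀]
    (a b : k[X]) : WeierstrassCurve K₀ :=
  crv3 (algebraMap k[X] K₀ a) (algebraMap k[X] K₀ b)

/-- The conclusion on the points: for the homomorphism `ψ` from `K₀ = k(s)` to `K = L(t)` with
`ψ(s) = q / r` the pullback of points `(x, y) ↦ (r ^ (2 m) ψ(x), r ^ (3 m) ψ(y))` is an injective
homomorphism `ι` of the groups of points. If `L` does not contain a primitive cube root of unity, or `k`
contains one, then each point over `K` is three times a point plus a point in the image of `ι`, and if the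
group of points over `K` is finitely generated, then the image of `ι` contains the multiples of all the
points by a number which is not divisible by three. -/
def PointsMod (K₀ : Type) [Field K₀] [Algebra k[X] K₀] (m : ℕ) (a b q r : k[X]) (L K : Type)
    [Field L] [Algebra k L] [Field K] [Algebra L[X] K] : Prop :=
  ∃ (ψ : K₀ →+* K) (ι : Pt (E0 K₀ a b) K₀ →+ Pt (EQ L K m a b q r) K),
    (∀ c : k, ψ (algebraMap k[X] K₀ (C c)) = algebraMap L[X] K (C (algebraMap k L c))) ∧
    ψ (algebraMap k[X] K₀ X) = algebraMap L[X] K (q.map (algebraMap k L)) /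
      algebraMap L[X] K (r.map (algebraMap k L)) ∧
    Function.Injective ι ∧
    (∀ (x y : K₀) (hn : ((E0 K₀ a b).baseChange K₀).toAffine.Nonsingular x y),
      ∃ hn' : ((EQ L K m a b q r).baseChange K).toAffine.Nonsingular
        (((algebraMap L[X] K (r.map (algebraMap k L))) ^ m) ^ 2 * ψ x)
        (((algebraMap L[X] K (r.map (algebraMap k L))) ^ m) ^ 3 * ψ y),
        ι (Point.some x y hn) = Point.some _ _ hn') ∧
    (((∀ x : L, x ^ 2 + x + 1 ≠ 0) ∨ ∃ x : k, x ^ 2 + x + 1 = 0) →
      (∀ P : Pt (EQ L K m a b q r) K, ∃ (Q : Pt (EQ L K m a b q r) K)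
        (P₀ : Pt (E0 K₀ a b) K₀), P = 3 • Q + ι P₀) ∧
      (AddGroup.FG (Pt (EQ L K m a b q r) K) → ∃ N : ℕ, ¬ 3 ∣ N ∧
        ∀ P : Pt (EQ L K m a b q r) K, ∃ P₀ : Pt (E0 K₀ a b) K₀, N • P = ι P₀))

theorem holds_fib (hB : Base3 K₀ m a b) {q r : k[X]}
    {L L' K F : Type} [Field L] [Field L'] [Algebra L L'] [Field K] [Algebra L[X] K]
    [Field F] [Algebra L'[X] F] [IsFractionRing L'[X] F] [Algebra K F]
    [Algebra k L] (hT : IsTower L L' K F)
    (hF : Fib (algebraMap k L) L' (q.map (algebraMap k L)) (r.map (algebraMap k L)) m n a b)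
    (hpar : ¬ 3 ∣ n ∨ (r = 1 ∧ b.natDegree ≠ 3 * m ∧ (a ^ 3 - 27 * b).natDegree ≠ 3 * m)) :
    TateAt (F := F) 3 L' (EQ L K m a b q r) ∧ PointsMod K₀ m a b q r L K := by
  haveI := hT.fracK
  have hpar' : ¬ 3 ∣ n ∨ (r.map (algebraMap k L) = 1 ∧ b.natDegree ≠ 3 * m ∧
      (a ^ 3 - 27 * b).natDegree ≠ 3 * m) :=
    hpar.imp id fun h => ⟨by rw [h.1, Polynomial.map_one], h.2⟩
  have e1 := hb_map (algebraMap k L) q r m a
  have e2 := hb_map (algebraMap k L) q r (3 * m) b
  have hr0 : algebraMap L[X] K (r.map (algebraMap k L)) ≠ 0 := by simpa using hF.r0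
  refine ⟨?_, ?_⟩
  · have := tate_pull (K₀ := K₀) (F := F) hT hB (algebraMap k L) hF hpar'
    rw [← e1, ← e2] at this
    exact this
  · have key := mw_pullj (K₀ := K₀) (F := F) hT hB (algebraMap k L) hF hpar'
    rw [← e1, ← e2] at key
    obtain ⟨ψ, ι, hψ, hι, hs, hP⟩ := key
    refine ⟨ψ, ι, fun c => ?_, ?_, hι, hs, fun hω => ⟨hP hω, fun hfg => ?_⟩⟩
    · have := hψ (C c)
      rw [map_C, Pool.Agent.X243.Gen.pb_C, natDegree_C, pow_zero, one_mul] at this
      exact this.symm
    · have := hψ X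
      have e3 : pb (q.map (algebraMap k L)) (r.map (algebraMap k L)) (X.map (algebraMap k L)) =
          q.map (algebraMap k L) := by
        have h4 := Pool.Agent.X243.Gen.pb_lin (q.map (algebraMap k L)) (r.map (algebraMap k L)) 0
        rw [C_0, sub_zero, zero_mul, sub_zero] at h4
        rw [map_X, h4]
      rw [e3, natDegree_X, pow_one] at this
      rw [eq_div_iff hr0, this, mul_comm]
    · obtain ⟨N, hN, hN'⟩ := three_exponent ι.range hfg fun P => by
        obtain ⟨Q, P₀, e⟩ := hP hω P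
        exact ⟨Q, ι P₀, ⟨P₀, rfl⟩, e⟩
      refine ⟨N, hN, fun P => ?_⟩
      obtain ⟨P₀, e⟩ := hN' P
      exact ⟨P₀, e.symm⟩

theorem holds_ext (hB : Base3 K₀ m a b) {q r : k[X]} (h5 : 5 ≤ n)
    (hpar : ¬ 3 ∣ n ∨ (r = 1 ∧ b.natDegree ≠ 3 * m ∧ (a ^ 3 - 27 * b).natDegree ≠ 3 * m))
    (hco : IsCoprime q r) (hq : q.natDegree = n) (hr : r.natDegree ≤ n)
    (hf : ∀ f, Form m a b q r f → FF n f)
    {L L' K F : Type} [Field L] [Field L'] [Algebra L L'] [Field K] [Algebra L[X] K]
    [Field F] [Algebra L'[X] F] [IsFractionRing L'[X] F] [Algebra K F]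
    [Algebra k L] [Algebra k L'] [IsScalarTower k L L'] (hT : IsTower L L' K F)
    (M : IntermediateField k L') (hMn : Normal k M)
    (hM : ∀ x : L, IsSeparable k x → algebraMap L L' x ∈ M)
    (hns : ∀ f, Form m a b q r f → ¬ (f.map (algebraMap k M)).Splits) :
    TateAt (F := F) 3 L' (EQ L K m a b q r) ∧ PointsMod K₀ m a b q r L K := by
  haveI := hT.sep
  exact holds_fib hB hT (fib_ext h5 hco hq hr hf M hM hns) hpar

theorem holds_solv (hB : Base3 K₀ m a b) {q r : k[X]} (h5 : 5 ≤ n)
    (hpar : ¬ 3 ∣ n ∨ (r = 1 ∧ b.natDegree ≠ 3 * m ∧ (a ^ 3 - 27 * b).natDegree ≠ 3 * m))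
    (hco : IsCoprime q r) (hq : q.natDegree = n) (hr : r.natDegree ≤ n)
    (hf : ∀ f, Form m a b q r f → FF n f)
    {L L' K F : Type} [Field L] [Field L'] [Algebra L L'] [Field K] [Algebra L[X] K]
    [Field F] [Algebra L'[X] F] [IsFractionRing L'[X] F] [Algebra K F]
    [Algebra k L] [Algebra k L'] [IsScalarTower k L L'] (hT : IsTower L L' K F)
    (hM : ∀ x : L, IsSeparable k x → Group.IsSolvable (minpoly k x).Gal) :
    TateAt (F := F) 3 L' (EQ L K m a b q r) ∧ PointsMod K₀ m a b q r L K := by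
  haveI := hT.sep
  haveI : IsSepClosed L' := IsSepClosure.sep_closed L
  exact holds_ext hB h5 hpar hco hq hr hf hT (solvM k L') (solvM_normal L')
    (fun x hx => mem_solvM hx (hM x hx))
    (fun f h => solvM_not_splits L' (hf f h).2.1 (by rw [(hf f h).1.2]; exact h5) (hf f h).2.2)

end holds

end Pool.Agent.N181.P3
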