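import Pool.Agent.N181.P3.Scale

/-!
The Tate conjecture at 3 and the points modulo 3 for pullbacks.
-/

set_option autoImplicit false
set_option linter.all false

open Polynomial IsDedekindDomain WeierstrassCurve WeierstrassCurve.Affine
open scoped Classical

namespace Pool.Agent.N181.P3

open Pool.Agent.N181.T3
open Pool.Agent.X243.Gen (pb pb_sum pb_mul pb_C pb_one pb_pow pb_lin pb_map pb_frac pb_ne exists_psi
  natDegree_pb root_of_prime form_cop)
open Pool.Agent.TH115.GD (Pt act incl rs ak act_zero act_some act_inj act_act IsCoc LocTriv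
  fixed_point exists_restrict rs_act_incl Preserves exists_conj IsTower LocallyTrivial Sep Comp
  wFin lt_subT cob_isCoc sepKΩ preserves)

/-- The base: an elliptic curve `y² + a x y + b y = x³` over `k(s)`, `a`, `b` polynomials of degrees at
most `m` and `3 m`, with complete first descents, all of whose finite places of bad reduction are
rational. -/
structure Base3 {k : Type} [Field k] (K₀ : Type) [Field K₀] [Algebra k[X] K₀] (m : ℕ) (a b : k[X]) :
    Prop where
  three : (3 : k) ≠ 0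
  da : a.natDegree ≤ m
  db : b.natDegree ≤ 3 * m
  hb : b ≠ 0
  hd : a ^ 3 - 27 * b ≠ 0
  sb : b.Splits
  sd : (a ^ 3 - 27 * b).Splits
  ob : ∃ ξ : k, ¬ 3 ∣ b.rootMultiplicity ξ
  od : ∃ ξ : k, ¬ 3 ∣ (a ^ 3 - 27 * b).rootMultiplicity ξ
  c1 : Comp3 K₀ m a b
  c2 : Comp3 K₀ m (3 * a) (a ^ 3 - 27 * b)

section

variable {k K₀ : Type} [Field k] [Field K₀] [Algebra k[X] K₀] {m : ℕ} {a b : k[X]}

theorem Base3.dd (hB : Base3 K₀ m a b) : (a ^ 3 - 27 * b).natDegree ≤ 3 * m := by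
  refine (natDegree_sub_le _ _).trans (max_le ?_ ?_)
  · exact natDegree_pow_le.trans (Nat.mul_le_mul_left 3 hB.da)
  · have e4 : (27 : k[X]) = C 27 := rfl
    rw [e4]
    exact (natDegree_C_mul_le _ _).trans hB.db

theorem three_a : (3 * a).natDegree ≤ a.natDegree := by
  have e4 : (3 : k[X]) = C 3 := rfl
  rw [e4]
  exact natDegree_C_mul_le _ _

theorem dual_disc : (3 * a) ^ 3 - 27 * (a ^ 3 - 27 * b) = C (3 ^ 6) * b := by
  have e : (C (3 ^ 6) : k[X]) = 3 ^ 6 := by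
    rw [C_pow]
    rfl
  rw [e]
  ring

theorem rm_C_mul {c : k} (hc : c ≠ 0) (p : k[X]) (hp : p ≠ 0) (ξ : k) :
    (C c * p).rootMultiplicity ξ = p.rootMultiplicity ξ := by
  rw [rootMultiplicity_mul (mul_ne_zero (C_ne_zero.2 hc) hp), rootMultiplicity_C, zero_add]

end

section

variable {k L K₀ K : Type} [Field k] [Field L] [Field K₀] [Algebra k[X] K₀] [IsFractionRing k[X] K₀]
  (φ : k →+* L) {q r : L[X]} {m n : ℕ} {a b : k[X]}

theorem natDegree_hb_le (hqn : q.natDegree ≤ n) (hrn : r.natDegree ≤ n) {M : ℕ} {g : L[X]}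
    (hg : g.natDegree ≤ M) : (hb q r M g).natDegree ≤ n * M := by
  rw [hb_sum q r hg]
  refine natDegree_sum_le_of_forall_le _ _ fun i hi => ?_
  rw [Finset.mem_range] at hi
  refine natDegree_mul_le.trans ?_
  have h4 : (C (g.coeff i) * q ^ i).natDegree ≤ n * i := by
    refine (natDegree_C_mul_le _ _).trans (natDegree_pow_le.trans ?_)
    rw [mul_comm]
    exact Nat.mul_le_mul_right _ hqn
  have h5 : (r ^ (M - i)).natDegree ≤ n * (M - i) := by
    refine natDegree_pow_le.trans ?_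
    rw [mul_comm]
    exact Nat.mul_le_mul_right _ hrn
  calc _ ≤ n * i + n * (M - i) := Nat.add_le_add h4 h5
    _ = n * M := by rw [← mul_add]; congr 1; omega

/-- The discriminant of the pullback. -/
theorem disc_pull (hB : Base3 K₀ m a b) (hr0 : r ≠ 0) (hco : IsCoprime q r) (hq : 0 < q.natDegree) :
    hb q r m (a.map φ) ^ 3 - 27 * hb q r (3 * m) (b.map φ) =
      hb q r (3 * m) ((a ^ 3 - 27 * b).map φ) := by
  obtain ⟨ψ, hψ⟩ := exists_psi (K₀ := K₀) (K := FractionRing L[X]) φ (q := q) hr0 (fun g hg =>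
    pb_ne hco hq ((Polynomial.map_ne_zero_iff φ.injective).2 hg))
  apply IsFractionRing.injective L[X] (FractionRing L[X])
  rw [map_sub, map_mul, map_pow, map_ofNat, hb_psi φ hψ hB.da, hb_psi φ hψ hB.db,
    hb_psi φ hψ hB.dd, map_sub, map_mul, map_pow, map_ofNat, map_sub, map_mul, map_pow, map_ofNat]
  ring

theorem a_pull (hB : Base3 K₀ m a b) (hr0 : r ≠ 0) (hco : IsCoprime q r) (hq : 0 < q.natDegree) :
    3 * hb q r m (a.map φ) = hb q r m ((3 * a).map φ) := by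
  obtain ⟨ψ, hψ⟩ := exists_psi (K₀ := K₀) (K := FractionRing L[X]) φ (q := q) hr0 (fun g hg =>
    pb_ne hco hq ((Polynomial.map_ne_zero_iff φ.injective).2 hg))
  apply IsFractionRing.injective L[X] (FractionRing L[X])
  rw [map_mul, map_ofNat, hb_psi φ hψ hB.da, hb_psi φ hψ (three_a.trans hB.da), map_mul,
    map_mul, map_ofNat, map_ofNat]
  ring

/-- The conditions on the fibres. -/
structure Fib (L' : Type) [Field L'] [Algebra L L'] (q r : L[X]) (m n : ℕ) (a b : k[X]) : Prop where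
  co : IsCoprime q r
  qp : 0 < q.natDegree
  qn : q.natDegree ≤ n
  rn : r.natDegree ≤ n
  fb : ∀ ξ, (b * (a ^ 3 - 27 * b)).IsRoot ξ → (q - C (φ ξ) * r).Separable ∧
    Stays L' (q - C (φ ξ) * r) ∧ (q - C (φ ξ) * r).natDegree = n
  rb : r = 1 ∨ (b.natDegree = 3 * m ∧ (a ^ 3 - 27 * b).natDegree = 3 * m) ∨
    (r.Separable ∧ Stays L' r ∧ r.natDegree = n)

theorem Fib.r0 {φ : k →+* L} {L' : Type} [Field L'] [Algebra L L'] (h : Fib φ L' q r m n a b) :
    r ≠ 0 := by
  rintro rfl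
  have := h.co
  rw [isCoprime_zero_right] at this
  have := natDegree_eq_zero_of_isUnit this
  have := h.qp
  omega

theorem Fib.npos {φ : k →+* L} {L' : Type} [Field L'] [Algebra L L'] (h : Fib φ L' q r m n a b) :
    0 < n := h.qp.trans_le h.qn

theorem not_cst_cube_pull (hco : IsCoprime q r) (hq : 0 < q.natDegree) (hr0 : r ≠ 0) {M : ℕ}
    {g : k[X]} (hg : g ≠ 0) (hs : g.Splits)
    (hirr : ∀ ξ, g.IsRoot ξ → Irreducible (q - C (φ ξ) * r)) {ξ : k}
    (hξ : ¬ 3 ∣ g.rootMultiplicity ξ) (u : L) (w : L[X]) : hb q r M (g.map φ) ≠ C u * w ^ 3 := by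
  obtain ⟨g', hg', hnd⟩ := exists_eq_pow_rootMultiplicity_mul_and_not_dvd g hg ξ
  have hroot : g.IsRoot ξ := by
    by_contra h
    apply hξ
    rw [rootMultiplicity_eq_zero h]
    exact dvd_zero 3
  have hg'0 : g' ≠ 0 := by
    rintro rfl
    rw [mul_zero] at hg'
    exact hg hg'
  have i1 := hirr ξ hroot
  have e : hb q r M (g.map φ) = (q - C (φ ξ) * r) ^ (g.rootMultiplicity ξ) *
      (r ^ (M - g.natDegree) * pb q r (g'.map φ)) := by
    rw [hb, natDegree_map]
    conv_lhs => rw [hg']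
    rw [Polynomial.map_mul, Polynomial.map_pow, Polynomial.map_sub, map_X, map_C, pb_mul,
      pb_pow, pb_lin, ← hg']
    ring
  rw [e]
  refine not_cst_cube' i1 hξ ?_ u w
  intro h4
  rcases i1.prime.dvd_or_dvd h4 with h5 | h5
  · have h6 := i1.prime.dvd_of_dvd_pow h5
    have h7 : q - C (φ ξ) * r ∣ q := by
      have := dvd_add (dvd_refl (q - C (φ ξ) * r)) (h6.mul_left (C (φ ξ)))
      rwa [sub_add_cancel] at this
    exact i1.not_isUnit (hco.isUnit_of_dvd' h7 h6)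
  · obtain ⟨ξ', hξ', h6⟩ := root_of_prime φ hg'0 (hs.of_dvd hg ⟨_, by rw [mul_comm]; exact hg'⟩)
      i1.prime h5
    have hne : ξ ≠ ξ' := by
      rintro rfl
      exact hnd (dvd_iff_isRoot.2 hξ')
    exact i1.not_isUnit (form_cop φ hco hne dvd_rfl h6)

theorem hyp_pull (hB : Base3 K₀ m a b) {L' : Type} [Field L'] [Algebra L L']
    (hF : Fib φ L' q r m n a b) :
    Hyp3 L' (hb q r m (a.map φ)) (hb q r (3 * m) (b.map φ)) (n * m) := by
  have hco := hF.co
  have hq := hF.qp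
  have hr0 := hF.r0
  have hpb : ∀ g : k[X], g ≠ 0 → pb q r (g.map φ) ≠ 0 := fun g hg =>
    pb_ne hco hq ((Polynomial.map_ne_zero_iff φ.injective).2 hg)
  have hb0 : ∀ (M : ℕ) (g : k[X]), g ≠ 0 → hb q r M (g.map φ) ≠ 0 := fun M g hg =>
    mul_ne_zero (pow_ne_zero _ hr0) (hpb g hg)
  have hdisc := disc_pull φ hB hr0 hco hq
  have rb : ∀ ξ, b.IsRoot ξ → (q - C (φ ξ) * r).Separable ∧ Stays L' (q - C (φ ξ) * r) ∧
      (q - C (φ ξ) * r).natDegree = n := by
    intro ξ h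
    exact hF.fb ξ (by rw [IsRoot.def, eval_mul, IsRoot.def.1 h, zero_mul])
  have rd : ∀ ξ, (a ^ 3 - 27 * b).IsRoot ξ → (q - C (φ ξ) * r).Separable ∧
      Stays L' (q - C (φ ξ) * r) ∧ (q - C (φ ξ) * r).natDegree = n := by
    intro ξ h
    exact hF.fb ξ (by rw [IsRoot.def, eval_mul, IsRoot.def.1 h, mul_zero])
  -- the irreducible factors
  have key : ∀ π : L[X], Irreducible π →
      π ∣ hb q r (3 * m) (b.map φ) * (hb q r m (a.map φ) ^ 3 - 27 * hb q r (3 * m) (b.map φ)) →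
      ∃ f : L[X], Associated π f ∧ f.Separable ∧ Stays L' f := by
    intro π hπ hd
    rw [hdisc] at hd
    have hform : ∀ f : L[X], f.Separable → Stays L' f → π ∣ f →
        ∃ f : L[X], Associated π f ∧ f.Separable ∧ Stays L' f := fun f h1 h2 h3 =>
      ⟨f, hπ.associated_of_dvd (irr_of_stays h2) h3, h1, h2⟩
    have hone : ∀ g : k[X], g ≠ 0 → g.Splits → (g.natDegree = 3 * m ∨ r = 1 ∨
        (r.Separable ∧ Stays L' r ∧ r.natDegree = n)) → (∀ ξ, g.IsRoot ξ →
          (q - C (φ ξ) * r).Separable ∧ Stays L' (q - C (φ ξ) * r) ∧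
          (q - C (φ ξ) * r).natDegree = n) → π ∣ hb q r (3 * m) (g.map φ) →
        ∃ f : L[X], Associated π f ∧ f.Separable ∧ Stays L' f := by
      intro g hg hs hr hroots hdg
      rw [hb, natDegree_map] at hdg
      rcases hπ.prime.dvd_or_dvd hdg with h1 | h1
      · rcases hr with h2 | h2 | h2
        · rw [h2, Nat.sub_self, pow_zero] at h1
          exact absurd (isUnit_of_dvd_one h1) hπ.not_isUnit
        · rw [h2, one_pow] at h1
          exact absurd (isUnit_of_dvd_one h1) hπ.not_isUnit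
        · exact hform r h2.1 h2.2.1 (hπ.prime.dvd_of_dvd_pow h1)
      · obtain ⟨ξ, hξ, h2⟩ := root_of_prime φ hg hs hπ.prime h1
        exact hform _ (hroots ξ hξ).1 (hroots ξ hξ).2.1 h2
    rcases hπ.prime.dvd_or_dvd hd with h | h
    · refine hone b hB.hb hB.sb ?_ rb h
      rcases hF.rb with h1 | h1 | h1
      · exact Or.inr (Or.inl h1)
      · exact Or.inl h1.1
      · exact Or.inr (Or.inr h1)
    · refine hone _ hB.hd hB.sd ?_ rd h
      rcases hF.rb with h1 | h1 | h1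
      · exact Or.inr (Or.inl h1)
      · exact Or.inl h1.2
      · exact Or.inr (Or.inr h1)
  refine ⟨?_, hb0 _ b hB.hb, ?_, ?_, ?_, ?_, ?_, ?_⟩
  · rw [← map_ofNat φ 3]
    exact (map_ne_zero_iff _ φ.injective).2 hB.three
  · rw [hdisc]
    exact hb0 _ _ hB.hd
  · exact natDegree_hb_le hF.qn hF.rn (by rw [natDegree_map]; exact hB.da)
  · intro π hπ hd
    obtain ⟨f, h1, h2, -⟩ := key π hπ hd
    exact h2.of_dvd h1.dvd
  · intro π hπ hd
    obtain ⟨f, h1, -, h2⟩ := key π hπ hd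
    intro k1 h3 h4
    exact ((h1.map (mapRingHom (algebraMap L k1))).irreducible_iff).2 (h2 k1 h3 h4)
  · obtain ⟨ξ, hξ⟩ := hB.ob
    exact not_cst_cube_pull φ hco hq hr0 hB.hb hB.sb (fun ξ h => irr_of_stays (rb ξ h).2.1) hξ
  · obtain ⟨ξ, hξ⟩ := hB.od
    rw [hdisc]
    exact not_cst_cube_pull φ hco hq hr0 hB.hd hB.sd (fun ξ h => irr_of_stays (rd ξ h).2.1) hξ

end

section tate

variable {k K₀ : Type} [Field k] [Field K₀] [Algebra k[X] K₀] [IsFractionRing k[X] K₀]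
  {m n : ℕ} {a b : k[X]}
  {L L' K F : Type} [Field L] [Field L'] [Algebra L L'] [Field K] [Algebra L[X] K]
  [Field F] [Algebra L'[X] F] [IsFractionRing L'[X] F] [Algebra K F]

theorem inF (hT : IsTower L L' K F) (h3 : (3 : L) ≠ 0) {c : L} {h d : K} {A : L[X]} (hc : c ≠ 0)
    (hh : h ≠ 0) (e : algebraMap L[X] K (C c * A) = h ^ 3 * d) :
    ∃ w : F, w ≠ 0 ∧ algebraMap K F (algebraMap L[X] K A) = w ^ 3 * algebraMap K F d := by
  haveI := hT.sep
  obtain ⟨u, hu, hu'⟩ := const_cube (K := K) (F := F) hT.map h3 hc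
  refine ⟨algebraMap K F h / u, div_ne_zero ((_root_.map_ne_zero _).2 hh) hu, ?_⟩
  have e1 := congrArg (algebraMap K F) e
  rw [map_mul, map_mul, map_mul, map_pow, hu'] at e1
  rw [div_pow]
  field_simp
  rw [← e1]
  ring

theorem tate_pull (hT : IsTower L L' K F) (hB : Base3 K₀ m a b) (φ : k →+* L) {q r : L[X]}
    (hF : Fib φ L' q r m n a b)
    (hpar : ¬ 3 ∣ n ∨ (r = 1 ∧ b.natDegree ≠ 3 * m ∧ (a ^ 3 - 27 * b).natDegree ≠ 3 * m)) :
    TateAt (F := F) 3 L' (crv3 (algebraMap L[X] K (hb q r m (a.map φ)))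
      (algebraMap L[X] K (hb q r (3 * m) (b.map φ)))) := by
  haveI := hT.fracK
  have hco := hF.co
  have hq := hF.qp
  have hr0 := hF.r0
  have hdisc := disc_pull φ hB hr0 hco hq
  have h3a := a_pull φ hB hr0 hco hq
  have hH := hyp_pull φ hB hF
  obtain ⟨ψ, hψ⟩ := exists_psi (K₀ := K₀) (K := K) φ (q := q) hr0 (fun g hg =>
    pb_ne hco hq ((Polynomial.map_ne_zero_iff φ.injective).2 hg))
  refine tate3i (F := F) hT hH rfl rfl ?_ ?_
  · intro A h1 h2 h4
    obtain ⟨P₀, P, c, h, hc, hh, -, e⟩ := comp_pull (K₀ := K₀) (K := K) φ hB.three hB.da hB.db hB.hb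
      hB.hd hB.sb hB.c1 hr0 hF.npos hψ (fun ξ h => by
        obtain ⟨i1, i2, i3⟩ := hF.fb ξ (by rw [IsRoot.def, eval_mul, IsRoot.def.1 h, zero_mul])
        exact ⟨irr_of_stays i2, i3⟩)
      (by
        rcases hF.rb with h | h | h
        · exact Or.inl h
        · exact Or.inr (Or.inl h.1)
        · exact Or.inr (Or.inr ⟨irr_of_stays h.2.1, h.2.2⟩))
      (hpar.imp id fun h => ⟨h.1, h.2.1⟩) rfl rfl A h1 h2 h4
    obtain ⟨w, hw, ew⟩ := inF (F := F) hT hH.three hc hh e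
    exact ⟨P, w, hw, ew⟩
  · intro B h1 h2 h4
    have hdd : (3 * a) ^ 3 - 27 * (a ^ 3 - 27 * b) ≠ 0 := by
      rw [dual_disc]
      exact mul_ne_zero (C_ne_zero.2 (pow_ne_zero 6 hB.three)) hB.hb
    rw [hdisc] at h2 h4
    have eK : algebraMap L[X] K (hb q r m (a.map φ)) ^ 3 -
        27 * algebraMap L[X] K (hb q r (3 * m) (b.map φ)) =
        algebraMap L[X] K (hb q r (3 * m) ((a ^ 3 - 27 * b).map φ)) := by
      rw [← hdisc, map_sub, map_mul, map_pow, map_ofNat]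
    have e3 : 3 * algebraMap L[X] K (hb q r m (a.map φ)) =
        algebraMap L[X] K (hb q r m ((3 * a).map φ)) := by
      rw [← h3a, map_mul, map_ofNat]
    obtain ⟨P₀, P, c, h, hc, hh, -, e⟩ := comp_pull (K₀ := K₀) (K := K) φ hB.three
      (three_a.trans hB.da) hB.dd hB.hd hdd hB.sd hB.c2 hr0 hF.npos hψ (fun ξ h => by
        obtain ⟨i1, i2, i3⟩ := hF.fb ξ (by rw [IsRoot.def, eval_mul, IsRoot.def.1 h, mul_zero])
        exact ⟨irr_of_stays i2, i3⟩)
      (by
        rcases hF.rb with h | h | h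
        · exact Or.inl h
        · exact Or.inr (Or.inl h.2)
        · exact Or.inr (Or.inr ⟨irr_of_stays h.2.1, h.2.2⟩))
      (hpar.imp id fun h => ⟨h.1, h.2.2⟩) e3 eK B h1 h2 h4
    obtain ⟨w, hw, ew⟩ := inF (F := F) hT hH.three hc hh e
    exact ⟨P, w, hw, ew⟩

end tate

end Pool.Agent.N181.P3
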