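import Pool.Agent.N181.P3.Scale

/-!
The isogeny from the curve `y² + 3 a x y + (a³ - 27 b) y = x³` to `y² + a x y + b y = x³` over a field with
a primitive cube root of unity.
-/

set_option autoImplicit false
set_option linter.all false

open Polynomial IsDedekindDomain WeierstrassCurve WeierstrassCurve.Affine
open scoped Classical

namespace Pool.Agent.N181.P3

open Pool.Agent.N181.T3
open Pool.Agent.TH115.GD (Pt act incl rs ak act_zero act_some act_inj act_act IsCoc LocTriv
  fixed_point exists_restrict rs_act_incl Preserves exists_conj IsTower LocallyTrivial Sep Comp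
  wFin lt_subT cob_isCoc sepKΩ preserves)

/-- First coordinate of the isogeny. -/
noncomputable def dG {F : Type} [Field F] (z a x y : F) : F :=
  (-(1 - z) * x ^ 3 / y + (1 - z ^ 2) * y + 3 * a * x) / (9 * x)

/-- Second coordinate of the isogeny. -/
noncomputable def dT {F : Type} [Field F] (z a x y : F) : F :=
  (-(1 - z) * y + (1 - z ^ 2) * (x ^ 3 / y) - 3 * a * x) / (9 * x)

section lift

variable {K Ω : Type} [Field K] [Field Ω] [Algebra K Ω] [IsSepClosed Ω] {a b : K}
  (hE : IsE ((crv3 a b).baseChange Ω).toAffine (algebraMap K Ω a) (algebraMap K Ω b))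
  {zK : K} (hzK : zK ^ 2 + zK + 1 = 0)

/-- The image under the isogeny. -/
def DualPt (Ω : Type) [Field Ω] [Algebra K Ω] (a b zK : K) (P' : Pt (crv3 (3 * a) (a ^ 3 - 27 * b)) K)
    (R : Pt (crv3 a b) Ω) : Prop :=
  R = 0 ∨ ∃ (x y : K) (hn : ((crv3 (3 * a) (a ^ 3 - 27 * b)).baseChange K).toAffine.Nonsingular x y)
    (hn' : ((crv3 a b).baseChange Ω).toAffine.Nonsingular
      (algebraMap K Ω (dG zK a x y * dT zK a x y)) (algebraMap K Ω (dG zK a x y ^ 3))),
    P' = Point.some x y hn ∧ x ≠ 0 ∧ y ≠ 0 ∧ R = Point.some _ _ hn'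

include hE hzK

/-- A point of the isogenous curve comes from a point `H` over `Ω`, with three times `H`. -/
theorem lift3 (P' : Pt (crv3 (3 * a) (a ^ 3 - 27 * b)) K) :
    ∃ (H : Pt (crv3 a b) Ω) (t : Ω), t ≠ 0 ∧
      t ^ 3 = algebraMap K Ω (dd (a ^ 3 - 27 * b) P') ∧ DualPt Ω a b zK P' (H + H + H) ∧
      ∀ φ : Ω →ₐ[K] Ω, InT hE (act (crv3 a b) φ H - H) ∧
        φ t = he (algebraMap K Ω zK) (algebraMap K Ω b) (act (crv3 a b) φ H - H) * t := by
  set z := algebraMap K Ω zK with hzdef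
  have hz : z ^ 2 + z + 1 = 0 := by
    rw [hzdef, ← map_pow, ← map_add, ← map_one (algebraMap K Ω), ← map_add, hzK, map_zero]
  have hz3 := z3 hz
  have hφz : ∀ φ : Ω →ₐ[K] Ω, φ z = z := fun φ => φ.commutes zK
  have hΔ : algebraMap K Ω (a ^ 3 - 27 * b) = algebraMap K Ω a ^ 3 - 27 * algebraMap K Ω b := by
    rw [map_sub, map_pow, map_mul, map_ofNat]
  rcases P' with _ | ⟨x, y, hxy⟩
  · refine ⟨0, 1, one_ne_zero, ?_, Or.inl (by rw [add_zero, add_zero]), fun φ => ?_⟩
    · rw [one_pow]; exact (map_one _).symm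
    · rw [map_zero, sub_zero]
      refine ⟨Or.inl rfl, ?_⟩
      rw [map_one, he_zero, one_mul]
  · have heq : y ^ 2 + 3 * a * x * y + (a ^ 3 - 27 * b) * y = x ^ 3 := by
      have h1 := hxy.1
      rw [Affine.equation_iff] at h1
      have e1 : ((crv3 (3 * a) (a ^ 3 - 27 * b)).baseChange K).toAffine.a₁ = 3 * a := rfl
      have e2 : ((crv3 (3 * a) (a ^ 3 - 27 * b)).baseChange K).toAffine.a₂ = 0 := map_zero _
      have e3 : ((crv3 (3 * a) (a ^ 3 - 27 * b)).baseChange K).toAffine.a₃ = a ^ 3 - 27 * b := rfl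
      have e4 : ((crv3 (3 * a) (a ^ 3 - 27 * b)).baseChange K).toAffine.a₄ = 0 := map_zero _
      have e6 : ((crv3 (3 * a) (a ^ 3 - 27 * b)).baseChange K).toAffine.a₆ = 0 := map_zero _
      rw [e1, e2, e3, e4, e6] at h1
      linear_combination h1
    by_cases hy : y = 0
    · -- the point `(0, 0)`
      obtain ⟨S, hS3, hSw, hSn⟩ := exists_S hE hz
      obtain ⟨-, hcube, hne⟩ := tor_val hE hS3 hSn
      rw [hSw] at hcube hne
      have hcob : ∀ φ : Ω →ₐ[K] Ω, InT hE (act (crv3 a b) φ S - S) := by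
        intro φ
        have h1 : act (crv3 a b) φ S + act (crv3 a b) φ S + act (crv3 a b) φ S = 0 :=
          (three_act _ _ _).2 hS3
        have h3 : (act (crv3 a b) φ S - S) + (act (crv3 a b) φ S - S) +
            (act (crv3 a b) φ S - S) = 0 := by
          calc _ = (act (crv3 a b) φ S + act (crv3 a b) φ S +
                act (crv3 a b) φ S) - (S + S + S) := by abel
            _ = 0 := by rw [h1, hS3, sub_zero]
        apply wt_one hE h3
        have h4 := wt_add hE h3 hS3
        have h5 := wt_act (crv3 a b) φ (algebraMap K Ω b) S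
        rw [φ.commutes] at h5
        rw [sub_add_cancel, h5, hSw, hφz] at h4
        exact mul_right_cancel₀ (z_ne hz) (by rw [one_mul]; exact h4.symm)
      refine ⟨-S, (-(he z (algebraMap K Ω b) S))⁻¹, inv_ne_zero (neg_ne_zero.2 hne), ?_,
        Or.inl ?_, fun φ => ?_⟩
      · simp only [dd, hy, if_true]
        rw [map_inv₀, inv_pow]
        congr 1
        have e : (-(he z (algebraMap K Ω b) S)) ^ 3 = -(he z (algebraMap K Ω b) S ^ 3) := by ring
        rw [e, hcube, neg_neg]
      · have e0 : -S + -S + -S = -(S + S + S) := by abel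
        rw [e0, hS3, neg_zero]
      · have e1 : act (crv3 a b) φ (-S) - -S = -(act (crv3 a b) φ S - S) := by
          rw [map_neg]; abel
        rw [e1]
        refine ⟨(hcob φ).neg hE, ?_⟩
        have h6 := he_rs hE hz (hφz φ) (hcob φ)
        rw [map_inv₀, map_neg, h6]
        have h7 := he_add hE hz (act (crv3 a b) φ S - S) ((hcob φ).neg hE)
        rw [add_neg_cancel, he_zero] at h7
        have h8 := he_ne hE hz (act (crv3 a b) φ S - S)
        field_simp
        linear_combination -h7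
    · obtain ⟨B, hB⟩ := exists_cb hE.three (algebraMap K Ω y)
      have hyΩ : algebraMap K Ω y ≠ 0 := (_root_.map_ne_zero _).2 hy
      have hB0 : B ≠ 0 := by
        rintro rfl
        apply hyΩ
        rw [← hB]; ring
      obtain ⟨u, v, w, hs, h0, h1⟩ := exists_res hz hE.three (algebraMap K Ω a)
        (-(algebraMap K Ω x) / B) B
      have h27 : (27 : Ω) ≠ 0 := by
        have : (27 : Ω) = 3 ^ 3 := by norm_num
        rw [this]; exact pow_ne_zero 3 hE.three
      have heqΩ := congrArg (algebraMap K Ω) heq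
      simp only [map_add, map_mul, map_pow, map_ofNat, hΔ] at heqΩ
      have eA3 : (-(algebraMap K Ω x) / B) ^ 3 = -(algebraMap K Ω x ^ 3) / algebraMap K Ω y := by
        rw [div_pow, hB]; congr 1; ring
      have eAB : -(algebraMap K Ω x) / B * B = -(algebraMap K Ω x) := div_mul_cancel₀ _ hB0
      have hprod : u * v * w = algebraMap K Ω b := by
        apply mul_left_cancel₀ h27
        rw [← prod_res hz, hs, h0, h1]
        rw [eA3, eAB, hB, ← heqΩ]
        field_simp
        ring
      obtain ⟨H, hH⟩ := hE.co hs hprod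
      have hheH : he z (algebraMap K Ω b) H = B := by
        rw [hH.he hE, h1, if_neg hB0]
      have hIn : ∀ φ : Ω →ₐ[K] Ω, InT hE (act (crv3 a b) φ H - H) := by
        intro φ
        have hφ3 : (φ B / B) ^ 3 = 1 := by
          rw [div_pow, ← map_pow, hB, φ.commutes, div_self hyΩ]
        have hφH := hH.map_pt φ
        have m1 : ra z (φ u) (φ v) (φ w) = φ (ra z u v w) := by
          have := ra_map φ z u v w
          rwa [hφz] at this
        have m2 : rb z (φ u) (φ v) (φ w) = φ (rb z u v w) := by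
          have := rb_map φ z u v w
          rwa [hφz] at this
        rw [h0, map_div₀, map_neg, φ.commutes] at m1
        rw [h1] at m2
        have e1' : ra z v w u = z ^ 2 * ra z u v w := by
          rw [← ra_cyc hz u v w]
          linear_combination -(ra z v w u) * hz3
        have e2' : rb z v w u = z * rb z u v w := by
          rw [← rb_cyc hz u v w]
          linear_combination -(rb z v w u) * hz3
        have e3' : ra z w u v = z * ra z u v w := by
          have := ra_cyc hz w u v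
          linear_combination (-1 : Ω) * this
        have e4' : rb z w u v = z ^ 2 * rb z u v w := by
          have := rb_cyc hz w u v
          linear_combination (-1 : Ω) * this
        have hz0 := z_ne hz
        rcases cube_cases hz hφ3 with h | h | h
        · have hB' : φ B = B := by rw [div_eq_iff hB0] at h; rw [h, one_mul]
          have : act (crv3 a b) φ H = H := by
            refine Co.ext' hE hz hφH hH ?_ ?_
            · rw [m1, h0, hB']
            · rw [m2, h1, hB']
          rw [this, sub_self]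
          exact Or.inl rfl
        · have hB' : φ B = z * B := by rw [div_eq_iff hB0] at h; rw [h]
          have : act (crv3 a b) φ H = H + ptT hE := by
            refine Co.ext' hE hz hφH (hH.addT hE) ?_ ?_
            · rw [m1, e1', h0, hB']
              field_simp
              linear_combination (algebraMap K Ω x) * hz3
            · rw [m2, e2', h1, hB']
          rw [this, add_sub_cancel_left]
          exact Or.inr (Or.inl rfl)
        · have hB' : φ B = z ^ 2 * B := by rw [div_eq_iff hB0] at h; rw [h]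
          have : act (crv3 a b) φ H = H - ptT hE := by
            refine Co.ext' hE hz hφH (hH.subT hE) ?_ ?_
            · rw [m1, e3', h0, hB']
              field_simp
              linear_combination (algebraMap K Ω x) * hz3
            · rw [m2, e4', h1, hB']
          have e5 : act (crv3 a b) φ H - H = -(ptT hE) := by rw [this]; abel
          rw [e5]
          exact Or.inr (Or.inr rfl)
      refine ⟨H, B, hB0, ?_, ?_, fun φ => ⟨hIn φ, ?_⟩⟩
      · simp only [dd, hy, if_false]
        exact hB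
      · by_cases hx : x = 0
        · left
          rw [hH.three hE, ← ra_mul_rb hz, h0, hx, map_zero, neg_zero, zero_div, zero_mul]
        · right
          have hxΩ : algebraMap K Ω x ≠ 0 := (_root_.map_ne_zero _).2 hx
          have hq : qq u v w ≠ 0 := by
            rw [← ra_mul_rb hz, h0, h1, eAB]
            exact neg_ne_zero.2 hxΩ
          have h9 : (9 : Ω) ≠ 0 := by
            have : (9 : Ω) = 3 ^ 2 := by norm_num
            rw [this]; exact pow_ne_zero 2 hE.three
          have g1 := gg_res hz hq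
          have g2 := gt_res hz hq
          rw [hs, h0, h1, eAB, eA3, hB] at g1 g2
          have eg : gg u v w = algebraMap K Ω (dG zK a x y) := by
            rw [dG, map_div₀, eq_div_iff (by
              rw [map_mul, map_ofNat]; exact mul_ne_zero h9 hxΩ)]
            simp only [map_add, map_sub, map_mul, map_pow, map_neg, map_div₀, map_one, map_ofNat,
              ← hzdef]
            linear_combination -g1
          have et : gt u v w = algebraMap K Ω (dT zK a x y) := by
            rw [dT, map_div₀, eq_div_iff (by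
              rw [map_mul, map_ofNat]; exact mul_ne_zero h9 hxΩ)]
            simp only [map_add, map_sub, map_mul, map_pow, map_neg, map_div₀, map_one, map_ofNat,
              ← hzdef]
            linear_combination -g2
          obtain ⟨hn, e⟩ := hH.tri hE hq
          have e1 : gg u v w * gt u v w = algebraMap K Ω (dG zK a x y * dT zK a x y) := by
            rw [eg, et, map_mul]
          have e2 : gg u v w ^ 3 = algebraMap K Ω (dG zK a x y ^ 3) := by
            rw [eg, map_pow]
          refine ⟨x, y, hxy, by rw [← e1, ← e2]; exact hn, rfl, hx, hy, ?_⟩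
          rw [e]
          simp only [e1, e2]
      · have := he_rs hE hz (hφz φ) (hIn φ)
        rw [hheH] at this
        exact this

end lift

section pull

variable {K₀ K Ω : Type} [Field K₀] [Field K] [Field Ω] [Algebra K Ω]

theorem dG_pull (ψ : K₀ →+* K) {ρ : K} (hρ : ρ ≠ 0) (z a x y : K₀) (hx : x ≠ 0) (hy : y ≠ 0)
    (h9 : (9 : K) ≠ 0) : dG (ψ z) (ρ * ψ a) (ρ ^ 2 * ψ x) (ρ ^ 3 * ψ y) = ρ * ψ (dG z a x y) := by
  have hx' : ψ x ≠ 0 := (map_ne_zero_iff _ ψ.injective).2 hx
  have hy' : ψ y ≠ 0 := (map_ne_zero_iff _ ψ.injective).2 hy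
  unfold dG
  simp only [map_div₀, map_add, map_mul, map_sub, map_neg, map_pow, map_one, map_ofNat]
  field_simp

theorem dT_pull (ψ : K₀ →+* K) {ρ : K} (hρ : ρ ≠ 0) (z a x y : K₀) (hx : x ≠ 0) (hy : y ≠ 0)
    (h9 : (9 : K) ≠ 0) : dT (ψ z) (ρ * ψ a) (ρ ^ 2 * ψ x) (ρ ^ 3 * ψ y) = ρ * ψ (dT z a x y) := by
  have hx' : ψ x ≠ 0 := (map_ne_zero_iff _ ψ.injective).2 hx
  have hy' : ψ y ≠ 0 := (map_ne_zero_iff _ ψ.injective).2 hy
  unfold dT
  simp only [map_div₀, map_add, map_mul, map_sub, map_neg, map_pow, map_one, map_ofNat]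
  field_simp

theorem dual_pull (ψ : K₀ →+* K) {a₀ b₀ z₀ : K₀} {a b ρ : K} (hρ : ρ ≠ 0) (ha : a = ρ * ψ a₀)
    (hb : b = ρ ^ 3 * ψ b₀) (h3 : (3 : K₀) ≠ 0) (hb₀ : b₀ ≠ 0) (hd₀ : a₀ ^ 3 - 27 * b₀ ≠ 0)
    {ι : Pt (crv3 a₀ b₀) K₀ →+ Pt (crv3 a b) K}
    (hι : ∀ (x y : K₀) (hn : ((crv3 a₀ b₀).baseChange K₀).toAffine.Nonsingular x y),
        ∃ hn' : ((crv3 a b).baseChange K).toAffine.Nonsingular (ρ ^ 2 * ψ x) (ρ ^ 3 * ψ y),
          ι (Point.some x y hn) = Point.some (ρ ^ 2 * ψ x) (ρ ^ 3 * ψ y) hn')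
    {P' : Pt (crv3 (3 * a) (a ^ 3 - 27 * b)) K}
    (hP' : P' = 0 ∨ ∃ (x₀ y₀ : K₀) (hn' : ((crv3 (3 * a) (a ^ 3 - 27 * b)).baseChange
      K).toAffine.Nonsingular (ρ ^ 2 * ψ x₀) (ρ ^ 3 * ψ y₀)), P' = Point.some _ _ hn')
    {R : Pt (crv3 a b) Ω} (hR : DualPt Ω a b (ψ z₀) P' R) :
    ∃ P₀ : Pt (crv3 a₀ b₀) K₀, act (crv3 a b) (incl K K Ω) (ι P₀) = R := by
  rcases hR with rfl | ⟨x, y, hn, hn', rfl, hx, hy, rfl⟩
  · exact ⟨0, by rw [map_zero, map_zero]⟩
  · rcases hP' with h | ⟨x₀, y₀, hn2, h⟩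
    · exact absurd h (Point.some_ne_zero _)
    · have h1 := Point.some.inj h
      obtain ⟨rfl, rfl⟩ := h1
      have hinj := ψ.injective
      have h3K : (3 : K) ≠ 0 := by
        rw [← map_ofNat ψ 3]
        exact (map_ne_zero_iff _ hinj).2 h3
      have h9 : (9 : K) ≠ 0 := by
        have : (9 : K) = 3 ^ 2 := by norm_num
        rw [this]; exact pow_ne_zero 2 h3K
      have hx₀ : x₀ ≠ 0 := by
        rintro rfl
        rw [map_zero, mul_zero] at hx
        exact hx rfl
      have hy₀ : y₀ ≠ 0 := by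
        rintro rfl
        rw [map_zero, mul_zero] at hy
        exact hy rfl
      have eG : dG (ψ z₀) a (ρ ^ 2 * ψ x₀) (ρ ^ 3 * ψ y₀) = ρ * ψ (dG z₀ a₀ x₀ y₀) := by
        rw [ha]; exact dG_pull ψ hρ _ _ _ _ hx₀ hy₀ h9
      have eT : dT (ψ z₀) a (ρ ^ 2 * ψ x₀) (ρ ^ 3 * ψ y₀) = ρ * ψ (dT z₀ a₀ x₀ y₀) := by
        rw [ha]; exact dT_pull ψ hρ _ _ _ _ hx₀ hy₀ h9
      have e1 : dG (ψ z₀) a (ρ ^ 2 * ψ x₀) (ρ ^ 3 * ψ y₀) *
          dT (ψ z₀) a (ρ ^ 2 * ψ x₀) (ρ ^ 3 * ψ y₀) =
          ρ ^ 2 * ψ (dG z₀ a₀ x₀ y₀ * dT z₀ a₀ x₀ y₀) := by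
        rw [eG, eT, map_mul]; ring
      have e2 : dG (ψ z₀) a (ρ ^ 2 * ψ x₀) (ρ ^ 3 * ψ y₀) ^ 3 =
          ρ ^ 3 * ψ (dG z₀ a₀ x₀ y₀ ^ 3) := by
        rw [eG, map_pow]; ring
      have hb' : b ≠ 0 := by
        rw [hb]; exact mul_ne_zero (pow_ne_zero 3 hρ) ((map_ne_zero_iff _ hinj).2 hb₀)
      have hd' : a ^ 3 - 27 * b ≠ 0 := by
        have e : a ^ 3 - 27 * b = ρ ^ 3 * ψ (a₀ ^ 3 - 27 * b₀) := by
          rw [ha, hb, map_sub, map_mul, map_pow, map_ofNat]
          ring
        rw [e]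
        exact mul_ne_zero (pow_ne_zero 3 hρ) ((map_ne_zero_iff _ hinj).2 hd₀)
      have hE := isE (a := a) (b := b) h3K hb' hd' Ω
      have hn₀ : ((crv3 a₀ b₀).baseChange K₀).toAffine.Nonsingular
          (dG z₀ a₀ x₀ y₀ * dT z₀ a₀ x₀ y₀) (dG z₀ a₀ x₀ y₀ ^ 3) := by
        have hE₀ : IsE ((crv3 a₀ b₀).baseChange K₀).toAffine a₀ b₀ :=
          isE (a := a₀) (b := b₀) h3 hb₀ hd₀ K₀
        rw [hE₀.nonsingular]
        have h4 := hE.nonsingular.1 hn'
        simp only [← map_mul, ← map_pow, ← map_add] at h4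
        have h5 := (algebraMap K Ω).injective h4
        rw [e1, e2, ha, hb] at h5
        apply hinj
        apply mul_left_cancel₀ (pow_ne_zero 6 hρ)
        simp only [map_add, map_mul, map_pow] at h5 ⊢
        linear_combination h5
      obtain ⟨h6, e6⟩ := hι _ _ hn₀
      refine ⟨Point.some _ _ hn₀, ?_⟩
      rw [e6]
      obtain ⟨h7, e7⟩ := act_some (crv3 a b) (incl K K Ω) h6
      rw [e7]
      have e8 : incl K K Ω (ρ ^ 2 * ψ (dG z₀ a₀ x₀ y₀ * dT z₀ a₀ x₀ y₀)) = algebraMap K Ω
          (dG (ψ z₀) a (ρ ^ 2 * ψ x₀) (ρ ^ 3 * ψ y₀) *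
            dT (ψ z₀) a (ρ ^ 2 * ψ x₀) (ρ ^ 3 * ψ y₀)) := by
        rw [e1]; rfl
      have e9 : incl K K Ω (ρ ^ 3 * ψ (dG z₀ a₀ x₀ y₀ ^ 3)) = algebraMap K Ω
          (dG (ψ z₀) a (ρ ^ 2 * ψ x₀) (ρ ^ 3 * ψ y₀) ^ 3) := by
        rw [e2]; rfl
      simp only [e8, e9]

end pull

end Pool.Agent.N181.P3
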