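import Pool.Agent.N181.P3.Ext

/-!
Bases: curves `y² + a x y + b y = x³` over `k(s)` with complete first descents.
-/

set_option autoImplicit false
set_option linter.all false

open Polynomial IsDedekindDomain WeierstrassCurve WeierstrassCurve.Affine
open scoped Classical

namespace Pool.Agent.N181.P3

open Pool.Agent.N181.T3
open Pool.Agent.TH115.GD (Pt act incl rs ak Sep pl)

section add

variable {K : Type} [Field K] {a b : K}

theorem isE_base (h3 : (3 : K) ≠ 0) (hb : b ≠ 0) (hd : a ^ 3 - 27 * b ≠ 0) :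
    IsE ((crv3 a b).baseChange K).toAffine a b := isE (a := a) (b := b) h3 hb hd K

theorem dd_add' (h3 : (3 : K) ≠ 0) (hb : b ≠ 0) (hd : a ^ 3 - 27 * b ≠ 0)
    (P P' : Pt (crv3 a b) K) : ∃ u : K, u ≠ 0 ∧ dd b (P + P') = u ^ 3 * (dd b P * dd b P') := by
  haveI : IsGalois K (Sep K) := inferInstance
  have hE := isE (a := a) (b := b) h3 hb hd (Sep K)
  exact dd_add (K := K) (F := K) hE P P'

theorem dd_ne (hb : b ≠ 0) (P : Pt (crv3 a b) K) : dd b P ≠ 0 := by
  cases P with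
  | zero => exact one_ne_zero
  | some x y hn =>
    show (if y = 0 then b⁻¹ else y) ≠ 0
    by_cases h : y = 0
    · rw [if_pos h]; exact inv_ne_zero hb
    · rw [if_neg h]; exact h

/-- The points of order three over `K`, when `b` and `a³ - 27 b` are not cubes. -/
theorem torsK (h3 : (3 : K) ≠ 0) (hb : b ≠ 0) (hd : a ^ 3 - 27 * b ≠ 0) (hbs : ∀ g : K, g ^ 3 ≠ b)
    (hds : ∀ g : K, g ^ 3 ≠ a ^ 3 - 27 * b) (m : ℕ) : ∀ X : Pt (crv3 a b) K, 3 ^ m • X = 0 →
    InT (isE_base h3 hb hd) X := by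
  have hE := isE_base h3 hb hd
  induction m with
  | zero =>
    intro X h
    rw [pow_zero, one_smul] at h
    exact Or.inl h
  | succ m ih =>
    intro X h
    have e3 : X + X + X = 3 • X := by
      rw [show (3 : ℕ) = 1 + 1 + 1 from rfl, add_smul, add_smul, one_smul]
    have h1 : 3 ^ m • (X + X + X) = 0 := by
      rw [e3, smul_smul, ← pow_succ, h]
    have h2 := ih (X + X + X) h1
    -- the class of `3 X` is a cube
    obtain ⟨u, hu, e1⟩ := dd_add' h3 hb hd (X + X) X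
    obtain ⟨v, hv, e2⟩ := dd_add' h3 hb hd X X
    have e4 : dd b (X + X + X) = (u * v * dd b X) ^ 3 := by
      rw [e1, e2]; ring
    have h4 : X + X + X = 0 := by
      rcases h2 with h2 | h2 | h2
      · exact h2
      · exfalso
        rw [h2, dd_T] at e4
        apply hbs (u * v * dd b X)⁻¹
        rw [inv_pow, ← e4, inv_inv]
      · exfalso
        rw [h2, dd_negT] at e4
        apply hbs (-(u * v * dd b X))
        have e : (-(u * v * dd b X)) ^ 3 = -((u * v * dd b X) ^ 3) := by ring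
        rw [e, ← e4, neg_neg]
    rcases tor_cases hE h4 with h5 | ⟨u, v, w, hc, hq, hw, hra⟩
    · exact h5
    · exfalso
      have h6 := hc.res hw
      rw [hra] at h6
      apply hds (-(rb (wt b X) u v w))
      linear_combination -h6

/-- **Points of infinite order.** -/
theorem inf_order (h3 : (3 : K) ≠ 0) (hb : b ≠ 0) (hd : a ^ 3 - 27 * b ≠ 0) (hbs : ∀ g : K, g ^ 3 ≠ b)
    (hds : ∀ g : K, g ^ 3 ≠ a ^ 3 - 27 * b) (f : K → ZMod 3)
    (hf : ∀ x y : K, x ≠ 0 → y ≠ 0 → f (x * y) = f x + f y) (hfb : f b = 0)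
    {P : Pt (crv3 a b) K} (hP : f (dd b P) ≠ 0) : ∀ N : ℕ, 0 < N → N • P ≠ 0 := by
  have f1 : f 1 = 0 := by
    have := hf 1 1 one_ne_zero one_ne_zero
    rw [mul_one] at this
    linear_combination -this
  have fcube : ∀ x : K, x ≠ 0 → f (x ^ 3) = 0 := by
    intro x hx
    have e : x ^ 3 = x * x * x := by ring
    rw [e, hf _ _ (mul_ne_zero hx hx) hx, hf _ _ hx hx]
    have : ∀ y : ZMod 3, y + y + y = 0 := by decide
    exact this _
  have hadd : ∀ Q R : Pt (crv3 a b) K, f (dd b (Q + R)) = f (dd b Q) + f (dd b R) := by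
    intro Q R
    obtain ⟨u, hu, e⟩ := dd_add' h3 hb hd Q R
    rw [e, hf _ _ (pow_ne_zero 3 hu) (mul_ne_zero (dd_ne hb Q) (dd_ne hb R)), fcube u hu, zero_add,
      hf _ _ (dd_ne hb Q) (dd_ne hb R)]
  let g : Pt (crv3 a b) K →+ ZMod 3 := ⟨⟨fun Q => f (dd b Q), f1⟩, hadd⟩
  have hg : ∀ Q, g Q = f (dd b Q) := fun Q => rfl
  have hE := isE_base h3 hb hd
  have hgT : ∀ Q : Pt (crv3 a b) K, InT hE Q → g Q = 0 := by
    have h1 : g (-(ptT hE)) = 0 := by
      rw [hg, dd_negT]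
      have e : f (-b) = f (-1) + f b := by
        rw [← hf _ _ (neg_ne_zero.2 one_ne_zero) hb]
        congr 1
        ring
      have e2 : f (-1) = 0 := by
        have e3 : ((-1 : K)) ^ 3 = -1 := by ring
        rw [← e3]
        exact fcube _ (neg_ne_zero.2 one_ne_zero)
      rw [e, e2, hfb, add_zero]
    rintro Q (h | h | h)
    · rw [h, map_zero]
    · rw [h, ← neg_neg (ptT hE), map_neg, h1, neg_zero]
    · rw [h, h1]
  intro N
  induction N using Nat.strong_induction_on with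
  | _ N ih =>
    intro hN h0
    by_cases hN3 : 3 ∣ N
    · -- write `N = 3 ^ e N'`
      obtain ⟨e, N', hN', hNN⟩ := Nat.exists_eq_pow_mul_and_not_dvd hN.ne' 3 (by norm_num)
      have h4 : 3 ^ e • (N' • P) = 0 := by
        rw [smul_smul, ← hNN, h0]
      have h5 := hgT _ (torsK h3 hb hd hbs hds e (N' • P) h4)
      rw [map_nsmul, hg, nsmul_eq_mul] at h5
      have h6 : ((N' : ℕ) : ZMod 3) ≠ 0 := by
        rw [Ne, ZMod.natCast_eq_zero_iff]
        exact hN'
      haveI : Fact (Nat.Prime 3) := ⟨Nat.prime_three⟩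
      exact (mul_ne_zero h6 hP) h5
    · have h5 := congrArg g h0
      rw [map_nsmul, hg, nsmul_eq_mul, map_zero] at h5
      have h6 : ((N : ℕ) : ZMod 3) ≠ 0 := by
        rw [Ne, ZMod.natCast_eq_zero_iff]
        exact hN3
      haveI : Fact (Nat.Prime 3) := ⟨Nat.prime_three⟩
      exact (mul_ne_zero h6 hP) h5

end add

section rep

variable (k : Type) [Field k] {K : Type} [Field K] [Algebra k[X] K] (a b : K)

/-- The element `x` of `k(s)` is the class of a point up to constants and cubes. -/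
def RepK (x : K) : Prop :=
  ∃ (P : Pt (crv3 a b) K) (c : k) (h : K), c ≠ 0 ∧ h ≠ 0 ∧
    algebraMap k[X] K (C c) * x = h ^ 3 * dd b P

variable {k a b}

theorem RepK.const [FaithfulSMul k[X] K] {u : k} (hu : u ≠ 0) :
    RepK k a b (algebraMap k[X] K (C u)) := by
  refine ⟨0, u⁻¹, 1, inv_ne_zero hu, one_ne_zero, ?_⟩
  rw [← map_mul, ← C_mul, inv_mul_cancel₀ hu, C_1, map_one]
  show (1 : K) = 1 ^ 3 * 1
  ring

theorem RepK.one : RepK k a b (1 : K) := by
  refine ⟨0, 1, 1, one_ne_zero, one_ne_zero, ?_⟩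
  rw [C_1, map_one]
  show (1 : K) * 1 = 1 ^ 3 * 1
  ring

theorem RepK.mul (h3 : (3 : K) ≠ 0) (hb : b ≠ 0) (hd : a ^ 3 - 27 * b ≠ 0) {x y : K}
    (hx : RepK k a b x) (hy : RepK k a b y) : RepK k a b (x * y) := by
  obtain ⟨P, c, h, hc, hh, e⟩ := hx
  obtain ⟨P', c', h', hc', hh', e'⟩ := hy
  obtain ⟨u, hu, q⟩ := dd_add' h3 hb hd P P'
  refine ⟨P + P', c * c', h * h' * u⁻¹, mul_ne_zero hc hc',
    mul_ne_zero (mul_ne_zero hh hh') (inv_ne_zero hu), ?_⟩
  rw [C_mul, map_mul, q]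
  calc _ = (algebraMap k[X] K (C c) * x) * (algebraMap k[X] K (C c') * y) := by ring
    _ = _ := by
      rw [e, e']
      field_simp

theorem RepK.cube {x z : K} (hz : z ≠ 0) (hx : RepK k a b x) : RepK k a b (z ^ 3 * x) := by
  obtain ⟨P, c, h, hc, hh, e⟩ := hx
  refine ⟨P, c, z * h, hc, mul_ne_zero hz hh, ?_⟩
  rw [mul_pow]
  linear_combination z ^ 3 * e

theorem RepK.of_cube {x z : K} (hz : z ≠ 0) (hx : RepK k a b (z ^ 3 * x)) : RepK k a b x := by
  have h := hx.cube (inv_ne_zero hz)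
  have e : z⁻¹ ^ 3 * (z ^ 3 * x) = x := by
    field_simp
  rwa [e] at h

theorem RepK.pow (h3 : (3 : K) ≠ 0) (hb : b ≠ 0) (hd : a ^ 3 - 27 * b ≠ 0) {x : K}
    (hx : RepK k a b x) (n : ℕ) : RepK k a b (x ^ n) := by
  induction n with
  | zero => rw [pow_zero]; exact RepK.one
  | succ n ih => rw [pow_succ]; exact ih.mul h3 hb hd hx

theorem RepK.inv (h3 : (3 : K) ≠ 0) (hb : b ≠ 0) (hd : a ^ 3 - 27 * b ≠ 0) {x : K} (h0 : x ≠ 0)
    (hx : RepK k a b x) : RepK k a b x⁻¹ := by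
  apply RepK.of_cube h0
  have e : x ^ 3 * x⁻¹ = x ^ 2 := by field_simp
  rw [e]
  exact hx.pow h3 hb hd 2

theorem RepK.pt {x y : K} (h3 : (3 : K) ≠ 0) (hb : b ≠ 0) (hd : a ^ 3 - 27 * b ≠ 0) (hy : y ≠ 0)
    (h : y ^ 2 + a * x * y + b * y = x ^ 3) : RepK k a b y := by
  have hn : ((crv3 a b).baseChange K).toAffine.Nonsingular x y := by
    rw [(isE_base h3 hb hd).nonsingular]; exact h
  refine ⟨Point.some x y hn, 1, 1, one_ne_zero, one_ne_zero, ?_⟩
  rw [C_1, map_one]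
  show 1 * y = 1 ^ 3 * (if y = 0 then b⁻¹ else y)
  rw [if_neg hy]
  ring

theorem RepK.ofb (h3 : (3 : K) ≠ 0) (hb : b ≠ 0) (hd : a ^ 3 - 27 * b ≠ 0) : RepK k a b b := by
  have hE := isE_base h3 hb hd
  refine ⟨-(ptT hE), -1, 1, neg_ne_zero.2 one_ne_zero, one_ne_zero, ?_⟩
  rw [dd_negT, C_neg, C_1, map_neg, map_one]
  ring

end rep

section comp

variable {k : Type} [Field k] {K : Type} [Field K] [Algebra k[X] K] [IsFractionRing k[X] K]
  {m : ℕ} {a b : k[X]}

theorem ne3 (h3 : (3 : k) ≠ 0) (hb : b ≠ 0) (hd : a ^ 3 - 27 * b ≠ 0) : (3 : K) ≠ 0 ∧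
    algebraMap k[X] K b ≠ 0 ∧ algebraMap k[X] K a ^ 3 - 27 * algebraMap k[X] K b ≠ 0 := by
  have inj := IsFractionRing.injective k[X] K
  refine ⟨?_, ?_, ?_⟩
  · have h3 : algebraMap k[X] K (C 3) ≠ 0 := by simpa using h3
    rwa [C_ofNat, map_ofNat] at h3
  · rw [Ne, map_eq_zero_iff _ inj]
    exact hb
  · have e : algebraMap k[X] K a ^ 3 - 27 * algebraMap k[X] K b =
        algebraMap k[X] K (a ^ 3 - 27 * b) := by
      rw [map_sub, map_mul, map_pow, map_ofNat]
    rw [e, Ne, map_eq_zero_iff _ inj]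
    exact hd

/-- A criterion for complete first descents. -/
theorem comp_of (h3 : (3 : k) ≠ 0) (hb : b ≠ 0) (hd : a ^ 3 - 27 * b ≠ 0) (hs : b.Splits) {g : K}
    (hg : g ≠ 0) (hcase : g = 1 ∨ b.natDegree = 3 * m)
    (hroots : ∀ ξ, b.IsRoot ξ → RepK k (algebraMap k[X] K a) (algebraMap k[X] K b)
      (algebraMap k[X] K (X - C ξ) * g)) : Comp3 K m a b := by
  obtain ⟨n1, n2, n3⟩ := ne3 (K := K) h3 hb hd
  have key : ∀ A : k[X], A ≠ 0 → (∀ π : k[X], Irreducible π → π ∣ A → π ∣ b) →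
      RepK k (algebraMap k[X] K a) (algebraMap k[X] K b)
        (algebraMap k[X] K A * g ^ A.natDegree) := by
    intro A
    refine WfDvdMonoid.induction_on_irreducible A ?_ ?_ ?_
    · intro h
      exact absurd rfl h
    · intro u hu _ _
      obtain ⟨c, hc, rfl⟩ := Polynomial.isUnit_iff.1 hu
      rw [natDegree_C, pow_zero, mul_one]
      exact RepK.const hc.ne_zero
    · intro A' p hA' hp ih _ hd
      have h4 := ih hA' fun π h1 h2 => hd π h1 (h2.mul_left _)
      obtain ⟨ξ, hξ, h5⟩ : ∃ ξ, b.IsRoot ξ ∧ Associated p (X - C ξ) := by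
        have h6 := hd p hp (dvd_mul_right _ _)
        obtain ⟨ξ, hξ⟩ := exists_root_of_degree_eq_one
          ((hs.of_dvd hb h6).degree_eq_one_of_irreducible hp)
        refine ⟨ξ, hξ.dvd h6, ?_⟩
        exact ((irreducible_X_sub_C ξ).associated_of_dvd hp (dvd_iff_isRoot.2 hξ)).symm
      obtain ⟨x, hx⟩ := h5.symm
      obtain ⟨u, hu, hux⟩ := Polynomial.isUnit_iff.1 x.isUnit
      have e : p = C u * (X - C ξ) := by rw [← hx, ← hux, mul_comm]
      have e1 : p.natDegree = 1 := by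
        rw [e, natDegree_C_mul hu.ne_zero, natDegree_X_sub_C]
      have e2 : algebraMap k[X] K (p * A') * g ^ (p * A').natDegree =
          algebraMap k[X] K (C u) * ((algebraMap k[X] K (X - C ξ) * g) *
            (algebraMap k[X] K A' * g ^ A'.natDegree)) := by
        rw [natDegree_mul hp.ne_zero hA', e1, pow_add, pow_one, map_mul, e, map_mul]
        ring
      rw [e2]
      exact (RepK.const hu.ne_zero).mul n1 n2 n3 ((hroots ξ hξ).mul n1 n2 n3 h4)
  intro A hA hAd hdeg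
  have h1 := key A hA hAd
  have h2 : RepK k (algebraMap k[X] K a) (algebraMap k[X] K b) (algebraMap k[X] K A) := by
    rcases hcase with h | h
    · rwa [h, one_pow, mul_one] at h1
    · obtain ⟨j, hj⟩ := hdeg h
      apply RepK.of_cube (pow_ne_zero j hg)
      rw [hj] at h1
      have e : (g ^ j) ^ 3 * algebraMap k[X] K A = algebraMap k[X] K A * g ^ (3 * j) := by
        rw [← pow_mul, mul_comm j 3, mul_comm]
      rw [e]
      exact h1
  obtain ⟨P, c, h, hc, hh, e⟩ := h2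
  exact ⟨P, c, h, hc, hh, by rw [map_mul]; exact e⟩

end comp

end Pool.Agent.N181.P3
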