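import Pool.Agent.N181.P3.Exa

/-!
Three bases: `(1, s)`, `(3 s + 1, s² (s + 1))` (the curves with a section of order six) and
`(3 μ, (s + 1) (s + μ³))` with a point of infinite order.
-/

set_option autoImplicit false
set_option linter.all false

open Polynomial IsDedekindDomain WeierstrassCurve WeierstrassCurve.Affine
open scoped Classical

namespace Pool.Agent.N181.P3

open Pool.Agent.N181.T3
open Pool.Agent.TH115.GD (Pt act incl rs ak Sep pl)

section

variable {k : Type} [Field k]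

theorem mult_of_deg {p : k[X]} (hs : p.Splits) (h : ¬ 3 ∣ p.natDegree) :
    ∃ ξ, ¬ 3 ∣ p.rootMultiplicity ξ := by
  by_contra hc
  push Not at hc
  apply h
  rw [hs.natDegree_eq_card_roots, ← Multiset.toFinset_sum_count_eq]
  refine Finset.dvd_sum fun ξ _ => ?_
  rw [count_roots]
  exact hc ξ

theorem t27 (h3 : (3 : k) ≠ 0) : (27 : k) ≠ 0 := by
  have : (27 : k) = 3 ^ 3 := by norm_num
  rw [this]
  exact pow_ne_zero 3 h3

theorem t9 (h3 : (3 : k) ≠ 0) : (9 : k) ≠ 0 := by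
  have : (9 : k) = 3 ^ 2 := by norm_num
  rw [this]
  exact pow_ne_zero 2 h3

variable {K : Type} [Field K] [Algebra k[X] K] [IsFractionRing k[X] K]

/-- The base `y² + x y + s y = x³`. -/
theorem base0 (h3 : (3 : k) ≠ 0) : Base3 K 1 (1 : k[X]) X := by
  have n27 := t27 h3
  have hb : (X : k[X]) ≠ 0 := X_ne_zero
  have e27 : (27 : k[X]) = C 27 := by rw [C_ofNat]
  have ed : (1 : k[X]) ^ 3 - 27 * X = C (-27) * (X - C (27⁻¹)) := by
    have h4 : C (27 : k) * C (27⁻¹) = (1 : k[X]) := by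
      rw [← C_mul, mul_inv_cancel₀ n27, C_1]
    rw [e27, C_neg]
    linear_combination -h4
  have n27' : (-27 : k) ≠ 0 := neg_ne_zero.2 n27
  have hd : (1 : k[X]) ^ 3 - 27 * X ≠ 0 := by
    rw [ed]
    exact mul_ne_zero (C_ne_zero.2 n27') (X_sub_C_ne_zero _)
  have sd : ((1 : k[X]) ^ 3 - 27 * X).Splits := by
    rw [ed]; exact (Splits.C _).mul (Splits.X_sub_C _)
  have dd1 : ((1 : k[X]) ^ 3 - 27 * X).natDegree = 1 := by
    rw [ed, natDegree_C_mul n27', natDegree_X_sub_C]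
  have hdd : (3 * 1 : k[X]) ^ 3 - 27 * ((1 : k[X]) ^ 3 - 27 * X) ≠ 0 := by
    rw [dual_disc]
    exact mul_ne_zero (C_ne_zero.2 (pow_ne_zero 6 h3)) hb
  refine ⟨h3, ?_, ?_, hb, hd, Splits.X, sd, ?_, ?_, ?_, ?_⟩
  · rw [natDegree_one]; omega
  · rw [natDegree_X]; omega
  · exact mult_of_deg Splits.X (by rw [natDegree_X]; norm_num)
  · exact mult_of_deg sd (by rw [dd1]; norm_num)
  · obtain ⟨n1, n2, n3⟩ := ne3 (K := K) h3 hb hd
    refine comp_of h3 hb hd Splits.X one_ne_zero (Or.inl rfl) fun ξ hξ => ?_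
    have e : (X - C ξ : k[X]) = X := by
      have h4 : ξ = 0 := by
        have := hξ
        rwa [IsRoot.def, eval_X] at this
      rw [h4, C_0, sub_zero]
    rw [e, mul_one]
    exact RepK.ofb n1 n2 n3
  · obtain ⟨n1, n2, n3⟩ := ne3 (K := K) h3 hd hdd
    refine comp_of h3 hd hdd sd one_ne_zero (Or.inl rfl) fun ξ hξ => ?_
    have h4 : (X - C ξ : k[X]) = C ((-27)⁻¹) * (1 ^ 3 - 27 * X) := by
      have h5 := hξ
      rw [ed, IsRoot.def, eval_mul, eval_C, eval_sub, eval_X, eval_C] at h5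
      have h6 := (mul_eq_zero.1 h5).resolve_left n27'
      rw [ed, ← mul_assoc, ← C_mul, inv_mul_cancel₀ n27', C_1, one_mul, sub_eq_zero.1 h6]
    have e : algebraMap k[X] K (X - C ξ) * 1 = algebraMap k[X] K (C ((-27)⁻¹)) *
        algebraMap k[X] K (1 ^ 3 - 27 * X) := by rw [mul_one, h4, map_mul]
    rw [e]
    exact (RepK.const (inv_ne_zero n27')).mul n1 n2 n3 (RepK.ofb n1 n2 n3)

theorem inf0 (h3 : (3 : k) ≠ 0) : InfBad 1 (1 : k[X]) X := by
  left
  rw [natDegree_X]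
  norm_num

/-- The base `y² + (3 s + 1) x y + s² (s + 1) y = x³` with points of order six. -/
theorem base1 (h3 : (3 : k) ≠ 0) : Base3 K 1 (3 * X + 1 : k[X]) (X ^ 2 * (X + 1)) := by
  have n27 := t27 h3
  have n9 := t9 h3
  have e9 : (9 : k[X]) = C 9 := by rw [C_ofNat]
  have eX1 : (X + 1 : k[X]) = X - C (-1) := by rw [C_neg, C_1, sub_neg_eq_add]
  have hb : (X ^ 2 * (X + 1) : k[X]) ≠ 0 := by
    rw [eX1]
    exact mul_ne_zero (pow_ne_zero 2 X_ne_zero) (X_sub_C_ne_zero _)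
  have sb : (X ^ 2 * (X + 1) : k[X]).Splits := by
    rw [eX1, pow_two]
    exact (Splits.X.mul Splits.X).mul (Splits.X_sub_C _)
  have db : (X ^ 2 * (X + 1) : k[X]).natDegree = 3 := by
    rw [eX1, natDegree_mul (pow_ne_zero 2 X_ne_zero) (X_sub_C_ne_zero _), natDegree_X_pow,
      natDegree_X_sub_C]
  have ed : (3 * X + 1 : k[X]) ^ 3 - 27 * (X ^ 2 * (X + 1)) = C 9 * (X - C (-(9⁻¹))) := by
    have h4 : C (9 : k) * C (9⁻¹) = (1 : k[X]) := by
      rw [← C_mul, mul_inv_cancel₀ n9, C_1]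
    rw [C_neg, ← e9] at *
    linear_combination -h4
  have hd : (3 * X + 1 : k[X]) ^ 3 - 27 * (X ^ 2 * (X + 1)) ≠ 0 := by
    rw [ed]
    exact mul_ne_zero (C_ne_zero.2 n9) (X_sub_C_ne_zero _)
  have sd : ((3 * X + 1 : k[X]) ^ 3 - 27 * (X ^ 2 * (X + 1))).Splits := by
    rw [ed]; exact (Splits.C _).mul (Splits.X_sub_C _)
  have dd1 : ((3 * X + 1 : k[X]) ^ 3 - 27 * (X ^ 2 * (X + 1))).natDegree = 1 := by
    rw [ed, natDegree_C_mul n9, natDegree_X_sub_C]
  have hdd : (3 * (3 * X + 1) : k[X]) ^ 3 -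
      27 * ((3 * X + 1 : k[X]) ^ 3 - 27 * (X ^ 2 * (X + 1))) ≠ 0 := by
    rw [dual_disc]
    exact mul_ne_zero (C_ne_zero.2 (pow_ne_zero 6 h3)) hb
  refine ⟨h3, ?_, ?_, hb, hd, sb, sd, ⟨-1, ?_⟩, ?_, ?_, ?_⟩
  · refine (natDegree_add_le _ _).trans (max_le ?_ ?_)
    · refine (natDegree_mul_le).trans ?_
      rw [natDegree_X, natDegree_ofNat]
    · rw [natDegree_one]; omega
  · rw [db]
  · have : (X ^ 2 * (X + 1) : k[X]).rootMultiplicity (-1) = 1 := by
      rw [rootMultiplicity_mul hb]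
      have h4 : rootMultiplicity (-1) (X ^ 2 : k[X]) = 0 := by
        apply rootMultiplicity_eq_zero
        rw [IsRoot.def, eval_pow, eval_X]
        exact pow_ne_zero 2 (neg_ne_zero.2 one_ne_zero)
      rw [h4, zero_add, eX1, rootMultiplicity_X_sub_C_self]
    rw [this]
    norm_num
  · exact mult_of_deg sd (by rw [dd1]; norm_num)
  · obtain ⟨n1, n2, n3⟩ := ne3 (K := K) h3 hb hd
    have inj := IsFractionRing.injective k[X] K
    have hX : algebraMap k[X] K X ≠ 0 := by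
      rw [Ne, map_eq_zero_iff _ inj]; exact X_ne_zero
    refine comp_of h3 hb hd sb (g := (algebraMap k[X] K X) ^ 2) (pow_ne_zero 2 hX)
      (Or.inr (by rw [db])) fun ξ hξ => ?_
    have h4 : ξ = 0 ∨ ξ = -1 := by
      have h5 := hξ
      rw [eX1, IsRoot.def, eval_mul, eval_pow, eval_sub, eval_X, eval_C] at h5
      rcases mul_eq_zero.1 h5 with h6 | h6
      · left
        exact pow_eq_zero_iff (two_ne_zero) |>.1 h6
      · right
        linear_combination h6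
    rcases h4 with h4 | h4
    · rw [h4, C_0, sub_zero]
      have e : algebraMap k[X] K X * (algebraMap k[X] K X) ^ 2 = (algebraMap k[X] K X) ^ 3 * 1 := by
        ring
      rw [e]
      exact RepK.one.cube hX
    · rw [h4, ← eX1]
      have e : algebraMap k[X] K (X + 1) * (algebraMap k[X] K X) ^ 2 =
          algebraMap k[X] K (X ^ 2 * (X + 1)) := by
        rw [map_mul, map_pow]; ring
      rw [e]
      exact RepK.ofb n1 n2 n3
  · obtain ⟨n1, n2, n3⟩ := ne3 (K := K) h3 hd hdd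
    refine comp_of h3 hd hdd sd one_ne_zero (Or.inl rfl) fun ξ hξ => ?_
    have h4 : (X - C ξ : k[X]) = C (9⁻¹) * ((3 * X + 1 : k[X]) ^ 3 - 27 * (X ^ 2 * (X + 1))) := by
      have h5 := hξ
      rw [ed, IsRoot.def, eval_mul, eval_C, eval_sub, eval_X, eval_C] at h5
      have h6 := (mul_eq_zero.1 h5).resolve_left n9
      rw [ed, ← mul_assoc, ← C_mul, inv_mul_cancel₀ n9, C_1, one_mul, sub_eq_zero.1 h6]
    have e : algebraMap k[X] K (X - C ξ) * 1 = algebraMap k[X] K (C (9⁻¹)) *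
        algebraMap k[X] K ((3 * X + 1 : k[X]) ^ 3 - 27 * (X ^ 2 * (X + 1))) := by
      rw [mul_one, h4, map_mul]
    rw [e]
    exact (RepK.const (inv_ne_zero n9)).mul n1 n2 n3 (RepK.ofb n1 n2 n3)

/-- The base `y² + 3 μ x y + (s + 1) (s + μ³) y = x³`. -/
theorem base2 (h3 : (3 : k) ≠ 0) {μ : k} (hμ1 : μ ≠ 1) (hμ2 : μ ≠ -1) :
    Base3 K 1 (C (3 * μ) : k[X]) ((X + 1) * (X + C (μ ^ 3))) := by
  have n27 := t27 h3
  have n27' : (-27 : k) ≠ 0 := neg_ne_zero.2 n27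
  have eX1 : (X + 1 : k[X]) = X - C (-1) := by rw [C_neg, C_1, sub_neg_eq_add]
  have eX2 : (X + C (μ ^ 3) : k[X]) = X - C (-(μ ^ 3)) := by rw [C_neg, sub_neg_eq_add]
  have eX3 : (X + C (1 + μ ^ 3) : k[X]) = X - C (-(1 + μ ^ 3)) := by rw [C_neg, sub_neg_eq_add]
  have b1 : (X + 1 : k[X]) ≠ 0 := by rw [eX1]; exact X_sub_C_ne_zero _
  have b2 : (X + C (μ ^ 3) : k[X]) ≠ 0 := by rw [eX2]; exact X_sub_C_ne_zero _
  have b3 : (X + C (1 + μ ^ 3) : k[X]) ≠ 0 := by rw [eX3]; exact X_sub_C_ne_zero _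
  have hb : ((X + 1) * (X + C (μ ^ 3)) : k[X]) ≠ 0 := mul_ne_zero b1 b2
  have sb : ((X + 1) * (X + C (μ ^ 3)) : k[X]).Splits := by
    rw [eX1, eX2]
    exact (Splits.X_sub_C _).mul (Splits.X_sub_C _)
  have db : ((X + 1) * (X + C (μ ^ 3)) : k[X]).natDegree = 2 := by
    rw [natDegree_mul b1 b2, eX1, eX2, natDegree_X_sub_C, natDegree_X_sub_C]
  have e27 : (27 : k[X]) = C 27 := by rw [C_ofNat]
  have ed : (C (3 * μ) : k[X]) ^ 3 - 27 * ((X + 1) * (X + C (μ ^ 3))) =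
      C (-27) * (X * (X + C (1 + μ ^ 3))) := by
    rw [C_neg, C_add, C_1, C_mul, C_pow, ← e27, C_ofNat]
    ring
  have hd : (C (3 * μ) : k[X]) ^ 3 - 27 * ((X + 1) * (X + C (μ ^ 3))) ≠ 0 := by
    rw [ed]
    exact mul_ne_zero (C_ne_zero.2 n27') (mul_ne_zero X_ne_zero b3)
  have sd : ((C (3 * μ) : k[X]) ^ 3 - 27 * ((X + 1) * (X + C (μ ^ 3)))).Splits := by
    rw [ed, eX3]; exact (Splits.C _).mul (Splits.X.mul (Splits.X_sub_C _))
  have dd1 : ((C (3 * μ) : k[X]) ^ 3 - 27 * ((X + 1) * (X + C (μ ^ 3)))).natDegree = 2 := by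
    rw [ed, natDegree_C_mul n27', natDegree_mul X_ne_zero b3, eX3, natDegree_X, natDegree_X_sub_C]
  have hdd : (3 * C (3 * μ) : k[X]) ^ 3 -
      27 * ((C (3 * μ) : k[X]) ^ 3 - 27 * ((X + 1) * (X + C (μ ^ 3)))) ≠ 0 := by
    rw [dual_disc]
    exact mul_ne_zero (C_ne_zero.2 (pow_ne_zero 6 h3)) hb
  refine ⟨h3, ?_, ?_, hb, hd, sb, sd, ?_, ?_, ?_, ?_⟩
  · rw [natDegree_C]; omega
  · rw [db]; omega
  · exact mult_of_deg sb (by rw [db]; norm_num)
  · exact mult_of_deg sd (by rw [dd1]; norm_num)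
  · obtain ⟨n1, n2, n3⟩ := ne3 (K := K) h3 hb hd
    have inj := IsFractionRing.injective k[X] K
    have c1 : algebraMap k[X] K (X + 1) ≠ 0 := by
      rw [Ne, map_eq_zero_iff _ inj]; exact b1
    have hν : -(μ - 1) ^ 3 ≠ 0 := neg_ne_zero.2 (pow_ne_zero 3 (sub_ne_zero.2 hμ1))
    have r1 : RepK k (algebraMap k[X] K (C (3 * μ)))
        (algebraMap k[X] K ((X + 1) * (X + C (μ ^ 3)))) (algebraMap k[X] K (X + 1)) := by
      have h4 : RepK k (algebraMap k[X] K (C (3 * μ)))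
          (algebraMap k[X] K ((X + 1) * (X + C (μ ^ 3))))
          (algebraMap k[X] K (C (-(μ - 1) ^ 3) * (X + 1))) := by
        refine RepK.pt (x := algebraMap k[X] K (C (-(μ - 1)) * (X + 1))) n1 n2 n3 ?_ ?_
        · rw [Ne, map_eq_zero_iff _ inj]
          exact mul_ne_zero (C_ne_zero.2 hν) b1
        · simp only [← map_mul, ← map_pow, ← map_add]
          congr 1
          simp only [C_neg, C_mul, C_sub, C_pow, C_1, C_ofNat]
          ring
      have h5 := (RepK.const (k := k) (a := algebraMap k[X] K (C (3 * μ)))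
        (b := algebraMap k[X] K ((X + 1) * (X + C (μ ^ 3)))) (K := K)
        (inv_ne_zero hν)).mul n1 n2 n3 h4
      have e : algebraMap k[X] K (C (-(μ - 1) ^ 3)⁻¹) *
          algebraMap k[X] K (C (-(μ - 1) ^ 3) * (X + 1)) = algebraMap k[X] K (X + 1) := by
        rw [← map_mul, ← mul_assoc, ← C_mul, inv_mul_cancel₀ hν, C_1, one_mul]
      rwa [e] at h5
    have r2 : RepK k (algebraMap k[X] K (C (3 * μ)))
        (algebraMap k[X] K ((X + 1) * (X + C (μ ^ 3)))) (algebraMap k[X] K (X + C (μ ^ 3))) := by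
      have h4 := (r1.inv n1 n2 n3 c1).mul n1 n2 n3 (RepK.ofb (k := k) n1 n2 n3)
      have e : (algebraMap k[X] K (X + 1))⁻¹ * algebraMap k[X] K ((X + 1) * (X + C (μ ^ 3))) =
          algebraMap k[X] K (X + C (μ ^ 3)) := by
        rw [map_mul, ← mul_assoc, inv_mul_cancel₀ c1, one_mul]
      rwa [e] at h4
    refine comp_of h3 hb hd sb one_ne_zero (Or.inl rfl) fun ξ hξ => ?_
    rw [mul_one]
    have h5 := hξ
    rw [eX1, eX2, IsRoot.def, eval_mul, eval_sub, eval_sub, eval_X, eval_C, eval_C] at h5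
    rcases mul_eq_zero.1 h5 with h6 | h6
    · rw [sub_eq_zero.1 h6, ← eX1]
      exact r1
    · rw [sub_eq_zero.1 h6, ← eX2]
      exact r2
  · obtain ⟨n1, n2, n3⟩ := ne3 (K := K) h3 hd hdd
    have inj := IsFractionRing.injective k[X] K
    have c1 : algebraMap k[X] K X ≠ 0 := by
      rw [Ne, map_eq_zero_iff _ inj]; exact X_ne_zero
    have hν' : 1 + μ ≠ 0 := fun h => hμ2 (by linear_combination h)
    have hν : 27 * (1 + μ) ^ 3 ≠ 0 := mul_ne_zero n27 (pow_ne_zero 3 hν')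
    have r1 : RepK k (algebraMap k[X] K (3 * C (3 * μ)))
        (algebraMap k[X] K ((C (3 * μ) : k[X]) ^ 3 - 27 * ((X + 1) * (X + C (μ ^ 3)))))
        (algebraMap k[X] K X) := by
      have h4 : RepK k (algebraMap k[X] K (3 * C (3 * μ)))
          (algebraMap k[X] K ((C (3 * μ) : k[X]) ^ 3 - 27 * ((X + 1) * (X + C (μ ^ 3)))))
          (algebraMap k[X] K (C (27 * (1 + μ) ^ 3) * X)) := by
        refine RepK.pt (x := algebraMap k[X] K (C (-(9 * (1 + μ))) * X)) n1 n2 n3 ?_ ?_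
        · rw [Ne, map_eq_zero_iff _ inj]
          exact mul_ne_zero (C_ne_zero.2 hν) X_ne_zero
        · simp only [← map_mul, ← map_pow, ← map_add]
          congr 1
          simp only [C_neg, C_mul, C_add, C_sub, C_pow, C_1, C_ofNat]
          ring
      have h5 := (RepK.const (k := k) (a := algebraMap k[X] K (3 * C (3 * μ)))
        (b := algebraMap k[X] K ((C (3 * μ) : k[X]) ^ 3 - 27 * ((X + 1) * (X + C (μ ^ 3)))))
        (K := K) (inv_ne_zero hν)).mul n1 n2 n3 h4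
      have e : algebraMap k[X] K (C (27 * (1 + μ) ^ 3)⁻¹) *
          algebraMap k[X] K (C (27 * (1 + μ) ^ 3) * X) = algebraMap k[X] K X := by
        rw [← map_mul, ← mul_assoc, ← C_mul, inv_mul_cancel₀ hν, C_1, one_mul]
      rwa [e] at h5
    have r2 : RepK k (algebraMap k[X] K (3 * C (3 * μ)))
        (algebraMap k[X] K ((C (3 * μ) : k[X]) ^ 3 - 27 * ((X + 1) * (X + C (μ ^ 3)))))
        (algebraMap k[X] K (X + C (1 + μ ^ 3))) := by
      have h4 := (RepK.const (k := k) (a := algebraMap k[X] K (3 * C (3 * μ)))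
        (b := algebraMap k[X] K ((C (3 * μ) : k[X]) ^ 3 - 27 * ((X + 1) * (X + C (μ ^ 3)))))
        (K := K) (inv_ne_zero n27')).mul n1 n2 n3 ((r1.inv n1 n2 n3 c1).mul n1 n2 n3
          (RepK.ofb (k := k) n1 n2 n3))
      have e : algebraMap k[X] K (C (-27)⁻¹) * ((algebraMap k[X] K X)⁻¹ *
          algebraMap k[X] K ((C (3 * μ) : k[X]) ^ 3 - 27 * ((X + 1) * (X + C (μ ^ 3))))) =
          algebraMap k[X] K (X + C (1 + μ ^ 3)) := by
        have e2 : algebraMap k[X] K (C (-27 : k)⁻¹) * algebraMap k[X] K (C (-27)) = 1 := by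
          rw [← map_mul, ← C_mul, inv_mul_cancel₀ n27', C_1, map_one]
        rw [ed, map_mul, map_mul]
        calc _ = (algebraMap k[X] K (C (-27 : k)⁻¹) * algebraMap k[X] K (C (-27))) *
              ((algebraMap k[X] K X)⁻¹ * algebraMap k[X] K X) *
                algebraMap k[X] K (X + C (1 + μ ^ 3)) := by
              generalize algebraMap k[X] K (C (-27 : k)⁻¹) = u
              ring
          _ = _ := by rw [e2, inv_mul_cancel₀ c1, one_mul, one_mul]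
      rwa [e] at h4
    refine comp_of h3 hd hdd sd one_ne_zero (Or.inl rfl) fun ξ hξ => ?_
    rw [mul_one]
    have h5 := hξ
    rw [ed, eX3, IsRoot.def, eval_mul, eval_mul, eval_sub, eval_X, eval_C, eval_C] at h5
    rcases mul_eq_zero.1 ((mul_eq_zero.1 h5).resolve_left n27') with h6 | h6
    · rw [h6, C_0, sub_zero]
      exact r1
    · rw [sub_eq_zero.1 h6, ← eX3]
      exact r2

theorem not_cube_mult {p : k[X]} (h : ∃ ξ, ¬ 3 ∣ p.rootMultiplicity ξ) (g : K) :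
    g ^ 3 ≠ algebraMap k[X] K p := by
  obtain ⟨ξ, hξ⟩ := h
  have hp : p ≠ 0 := by
    rintro rfl
    rw [rootMultiplicity_zero] at hξ
    exact hξ (dvd_zero 3)
  intro e
  have hg : g ≠ 0 := by
    rintro rfl
    rw [zero_pow three_ne_zero] at e
    exact hp ((map_eq_zero_iff _ (IsFractionRing.injective k[X] K)).1 e.symm)
  have h1 := p3_pow (F := K) (pl ξ) hg 3
  rw [e, p3_poly ξ hp] at h1
  have h2 : ((3 : ℕ) : ZMod 3) = 0 := rfl
  rw [h2, zero_mul, ZMod.natCast_eq_zero_iff] at h1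
  exact hξ h1

/-- The point of infinite order. -/
theorem inf2 (h3 : (3 : k) ≠ 0) {μ : k} (hμ1 : μ ^ 3 ≠ 1) (hμ2 : μ ≠ -1) :
    ∃ P : Pt (crv3 (algebraMap k[X] K (C (3 * μ))) (algebraMap k[X] K ((X + 1) * (X + C (μ ^ 3)))))
      K, ∀ N : ℕ, 0 < N → N • P ≠ 0 := by
  have hμ : μ ≠ 1 := by
    rintro rfl
    exact hμ1 (one_pow 3)
  have hB := base2 (K := K) h3 hμ hμ2
  obtain ⟨n1, n2, n3⟩ := ne3 (K := K) h3 hB.hb hB.hd
  have inj := IsFractionRing.injective k[X] K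
  have eX1 : (X + 1 : k[X]) = X - C (-1) := by rw [C_neg, C_1, sub_neg_eq_add]
  have eX2 : (X + C (μ ^ 3) : k[X]) = X - C (-(μ ^ 3)) := by rw [C_neg, sub_neg_eq_add]
  have b1 : (X + 1 : k[X]) ≠ 0 := by rw [eX1]; exact X_sub_C_ne_zero _
  have b2 : (X + C (μ ^ 3) : k[X]) ≠ 0 := by rw [eX2]; exact X_sub_C_ne_zero _
  have hν : -(μ - 1) ^ 3 ≠ 0 := neg_ne_zero.2 (pow_ne_zero 3 (sub_ne_zero.2 hμ))
  have hy0 : algebraMap k[X] K (C (-(μ - 1) ^ 3) * (X + 1)) ≠ 0 := by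
    rw [Ne, map_eq_zero_iff _ inj]
    exact mul_ne_zero (C_ne_zero.2 hν) b1
  have hn : ((crv3 (algebraMap k[X] K (C (3 * μ)))
      (algebraMap k[X] K ((X + 1) * (X + C (μ ^ 3))))).baseChange K).toAffine.Nonsingular
        (algebraMap k[X] K (C (-(μ - 1)) * (X + 1)))
        (algebraMap k[X] K (C (-(μ - 1) ^ 3) * (X + 1))) := by
    rw [(isE_base n1 n2 n3).nonsingular]
    simp only [← map_mul, ← map_pow, ← map_add]
    congr 1
    simp only [C_neg, C_mul, C_sub, C_pow, C_1, C_ofNat]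
    ring
  refine ⟨Point.some _ _ hn, ?_⟩
  have m1 : ((-(μ ^ 3) : k)) ≠ -1 := fun h => hμ1 (neg_injective h)
  have r11 : (X + 1 : k[X]).rootMultiplicity (-1) = 1 := by
    rw [eX1, rootMultiplicity_X_sub_C_self]
  have r12 : (X + 1 : k[X]).rootMultiplicity (-(μ ^ 3)) = 0 := by
    apply rootMultiplicity_eq_zero
    rw [eX1, IsRoot.def, eval_sub, eval_X, eval_C]
    exact sub_ne_zero.2 m1
  have r21 : (X + C (μ ^ 3) : k[X]).rootMultiplicity (-1) = 0 := by
    apply rootMultiplicity_eq_zero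
    rw [eX2, IsRoot.def, eval_sub, eval_X, eval_C]
    exact sub_ne_zero.2 (Ne.symm m1)
  have r22 : (X + C (μ ^ 3) : k[X]).rootMultiplicity (-(μ ^ 3)) = 1 := by
    rw [eX2, rootMultiplicity_X_sub_C_self]
  have hC : (C (-(μ - 1) ^ 3) * (X + 1) : k[X]) ≠ 0 := mul_ne_zero (C_ne_zero.2 hν) b1
  refine inf_order n1 n2 n3 (not_cube_mult hB.ob) ?_
    (fun x => p3 (pl (-1 : k)) x - p3 (pl (-(μ ^ 3) : k)) x) ?_ ?_ ?_
  · intro g
    have e : algebraMap k[X] K (C (3 * μ)) ^ 3 -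
        27 * algebraMap k[X] K ((X + 1) * (X + C (μ ^ 3))) =
        algebraMap k[X] K ((C (3 * μ)) ^ 3 - 27 * ((X + 1) * (X + C (μ ^ 3)))) := by
      rw [map_sub, map_mul (algebraMap k[X] K) 27, map_pow (algebraMap k[X] K) (C (3 * μ)) 3,
        map_ofNat]
    rw [e]
    exact not_cube_mult hB.od g
  · intro x y hx hy
    simp only [p3_mul _ hx hy]
    ring
  · show p3 (pl (-1 : k)) _ - p3 (pl (-(μ ^ 3) : k)) _ = 0
    rw [p3_poly _ hB.hb, p3_poly _ hB.hb, rootMultiplicity_mul hB.hb, rootMultiplicity_mul hB.hb,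
      r11, r12, r21, r22]
    simp
  · show p3 (pl (-1 : k)) (if algebraMap k[X] K (C (-(μ - 1) ^ 3) * (X + 1)) = 0 then _ else _) -
      p3 (pl (-(μ ^ 3) : k)) (if algebraMap k[X] K (C (-(μ - 1) ^ 3) * (X + 1)) = 0 then _ else _) ≠ 0
    rw [if_neg hy0, p3_poly _ hC, p3_poly _ hC, rm_C_mul hν _ b1, rm_C_mul hν _ b1, r11, r12]
    simp

/-- The base `y² + 3 μ x y + (s + 1) (s + μ³) y = x³` is bad at infinity. -/
theorem infb2 (μ : k) : InfBad 1 (C (3 * μ) : k[X]) ((X + 1) * (X + C (μ ^ 3))) := by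
  left
  intro h
  have h1 : ((X + 1) * (X + C (μ ^ 3)) : k[X]).natDegree ≤ 2 := by
    refine natDegree_mul_le.trans ?_
    rw [natDegree_X_add_C]
    have : (X + 1 : k[X]) = X + C 1 := by rw [C_1]
    rw [this, natDegree_X_add_C]
  omega

theorem infb1 (h3 : (3 : k) ≠ 0) : InfBad 1 (3 * X + 1 : k[X]) (X ^ 2 * (X + 1)) := by
  right
  have e : (3 * X + 1 : k[X]) ^ 3 - 27 * (X ^ 2 * (X + 1)) = C 9 * X + C 1 := by
    rw [C_ofNat, C_1]; ring
  rw [e]
  intro h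
  have h1 : (C 9 * X + C 1 : k[X]).natDegree ≤ 1 := natDegree_linear_le
  omega

end

end Pool.Agent.N181.P3
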