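import Pool.Agent.N181.P3.Base
import Pool.Agent.N181.P3.Dual

/-!
The points modulo 3, also with a primitive cube root of unity.
-/

set_option autoImplicit false
set_option linter.all false

open Polynomial IsDedekindDomain WeierstrassCurve WeierstrassCurve.Affine
open scoped Classical

namespace Pool.Agent.N181.P3

open Pool.Agent.N181.T3
open Pool.Agent.X243.Gen (pb pb_sum pb_mul pb_C pb_one pb_pow pb_lin pb_map pb_frac pb_ne exists_psi
  natDegree_pb root_of_prime form_cop)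
open Pool.Agent.TH115.GD (Pt act incl rs ak act_zero act_some act_inj act_act IsCoc LocTriv
  fixed_point exists_restrict rs_act_incl Preserves exists_conj IsTower LocallyTrivial Sep Comp
  wFin lt_subT cob_isCoc sepKΩ preserves)

section main

variable {k k' K F : Type} [Field k] [Field k'] [Algebra k k'] [Field K] [Algebra k[X] K]
    [Field F] [Algebra k'[X] F] [IsFractionRing k'[X] F] [Algebra K F]

/-- **The points modulo 3**: every point over `K` is three times a point plus points of the first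
descents. -/
theorem mw3j (hT : IsTower k k' K F) {a b : k[X]} {n : ℕ} (hG : Hyp3 k' a b n)
    {aK bK : K} (haK : aK = algebraMap k[X] K a) (hbK : bK = algebraMap k[X] K b)
    {GA GB : Pt (crv3 aK bK) K → Prop} (GB0 : GB 0)
    (oA : ∀ A : k[X], A ≠ 0 → (∀ π : k[X], Irreducible π → π ∣ A → π ∣ b) →
      (b.natDegree = 3 * n → 3 ∣ A.natDegree) →
      ∃ (P : Pt (crv3 aK bK) K) (c : F), GA P ∧ c ≠ 0 ∧
        algebraMap K F (algebraMap k[X] K A) = c ^ 3 * algebraMap K F (dd bK P))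
    (oB : (∀ x : k, x ^ 2 + x + 1 ≠ 0) ∨ ∀ zK : K, zK ^ 2 + zK + 1 = 0 → ∀ B : k[X], B ≠ 0 →
      (∀ π : k[X], Irreducible π → π ∣ B → π ∣ a ^ 3 - 27 * b) →
      ((a ^ 3 - 27 * b).natDegree = 3 * n → 3 ∣ B.natDegree) → HPt F aK bK zK GB B) :
    ∀ P : Pt (crv3 aK bK) K, ∃ Q T U : Pt (crv3 aK bK) K, GA T ∧ GB U ∧ P = 3 • Q + (T + U) := by
  haveI := hT.sep
  haveI := hT.fracK
  have hKF := hT.map
  have h3 := hG.three
  obtain ⟨h3K, hb0, hd0, hbs, hds⟩ := hyp_ne hT hG haK hbK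
  have hE := isE (a := aK) (b := bK) h3K hb0 hd0 (Sep F)
  haveI : IsSepClosed k' := IsSepClosure.sep_closed k
  have h3' : (3 : k') ≠ 0 := by
    rw [← map_ofNat (algebraMap k k') 3]
    exact (_root_.map_ne_zero _).2 h3
  haveI : IsSepClosure K (Sep F) := sepKΩ hKF
  haveI : Algebra.IsSeparable K (Sep F) := IsSepClosure.separable
  haveI : IsGalois K (Sep F) := inferInstance
  have hpres : Preserves K F (Sep F) := preserves hKF
  obtain ⟨zk, hzk⟩ := exists_z (F := k') h3'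
  set zF : F := algebraMap k'[X] F (C zk) with hzFdef
  set z : Sep F := algebraMap F (Sep F) zF with hzdef
  have hz : z ^ 2 + z + 1 = 0 := by
    rw [hzdef, hzFdef, ← map_pow, ← map_add, ← map_pow, ← map_add, ← C_pow, ← C_add,
      ← map_one (algebraMap F (Sep F)), ← map_add, ← map_one (algebraMap k'[X] F), ← map_add,
      ← C_1, ← C_add, hzk, C_0, map_zero, map_zero]
  have hzσ : ∀ σ : Sep F ≃ₐ[F] Sep F, σ z = z := fun σ => σ.commutes zF
  have e3 : ∀ {X : Type} [AddCommGroup X] (H : X), 3 • H = H + H + H := by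
    intro X _ H
    rw [show (3 : ℕ) = 1 + 1 + 1 from rfl, add_smul, add_smul, one_smul]
  have PK : ∀ (Q : Pt (crv3 aK bK) K) (φ : Sep F →ₐ[K] Sep F), act (crv3 aK bK) φ (act (crv3 aK bK) (incl K K (Sep F)) Q) =
      act (crv3 aK bK) (incl K K (Sep F)) Q := by
    intro Q φ
    have h1 : φ.comp (incl K K (Sep F)) = incl K K (Sep F) := AlgHom.ext fun x => φ.commutes x
    rw [act_act, h1]
  have inj : Function.Injective (act (crv3 aK bK) (incl K K (Sep F))) := act_inj _ _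
  intro P
  -- the step
  have step : ∀ (X : Pt (crv3 aK bK) (Sep F)), (∀ σ : Sep F ≃ₐ[F] Sep F, act (crv3 aK bK) (rs K σ) X = X) →
      (∀ τ : Sep F ≃ₐ[K] Sep F, ∃ m : ℕ, 3 ^ m • (act (crv3 aK bK) (ak τ) X - X) = 0) →
      ∃ (T : Pt (crv3 aK bK) K) (Y : Pt (crv3 aK bK) (Sep F)),
        (∃ T1 U1 : Pt (crv3 aK bK) K, GA T1 ∧ GB U1 ∧ T = T1 + U1) ∧
        (∀ σ : Sep F ≃ₐ[F] Sep F, act (crv3 aK bK) (rs K σ) Y = Y) ∧
        3 • Y = X - act (crv3 aK bK) (incl K K (Sep F)) T := by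
    intro X hX hX2
    obtain ⟨R, hR⟩ := third hE X
    obtain ⟨T, Q, H, hT1, hQ, hT2, hT3⟩ := sel3i (F := F) hT hG.three hG.hb hG.hd hG.han hG.hsep
      hG.hst hG.hcb hG.hcd haK hbK (GA := GA) (GB := GB) GB0 oA oB
      (fun σ : Sep F ≃ₐ[F] Sep F => act (crv3 aK bK) (rs K σ) R - R) (cob_isCoc (crv3 aK bK) R)
      (fun σ => by
        have : act (crv3 aK bK) (rs K σ) R - R + (act (crv3 aK bK) (rs K σ) R - R) + (act (crv3 aK bK) (rs K σ) R - R) =
            act (crv3 aK bK) (rs K σ) (R + R + R) - (R + R + R) := by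
          rw [map_add, map_add]; abel
        rw [this, hR, hX, sub_self]) (lt_cob R)
      (inv_cob fun τ => by
        obtain ⟨m, hm⟩ := hX2 τ
        refine ⟨m + 1, ?_⟩
        rw [pow_succ, mul_smul, smul_sub, ← map_nsmul, e3, hR]
        exact hm)
    refine ⟨T + Q, R - H, ⟨T, Q, hT1, hQ, rfl⟩, fun σ => ?_, ?_⟩
    · have h1 := hT3 σ
      rw [map_sub, sub_eq_sub_iff_sub_eq_sub]
      exact h1
    · rw [smul_sub, hT2, e3, hR]
  obtain ⟨T1, X, t1, x1, x2⟩ := step (act (crv3 aK bK) (incl K K (Sep F)) P) (fun σ => PK P _)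
    (fun τ => ⟨0, by rw [PK, sub_self, smul_zero]⟩)
  have x3 : ∀ τ : Sep F ≃ₐ[K] Sep F, 3 • (act (crv3 aK bK) (ak τ) X - X) = 0 := by
    intro τ
    rw [smul_sub, ← map_nsmul, x2, map_sub, PK, PK, sub_self]
  obtain ⟨T2, Y, t2, y1, y2⟩ := step X x1 (fun τ => ⟨1, by rw [pow_one]; exact x3 τ⟩)
  have y3 : ∀ τ : Sep F ≃ₐ[K] Sep F, 3 • (act (crv3 aK bK) (ak τ) Y - Y) = act (crv3 aK bK) (ak τ) X - X := by
    intro τ
    rw [smul_sub, ← map_nsmul, y2, map_sub (act (crv3 aK bK) (ak τ)), PK]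
    exact sub_sub_sub_cancel_right _ _ _
  have hfix : ∀ τ : Sep F ≃ₐ[K] Sep F, act (crv3 aK bK) (ak τ) X = X := by
    intro τ
    have h1 : ∀ σ : Sep F ≃ₐ[F] Sep F,
        act (crv3 aK bK) (rs K σ) (act (crv3 aK bK) (ak τ) Y - Y) = act (crv3 aK bK) (ak τ) Y - Y := by
      intro σ
      obtain ⟨σ', hσ'⟩ := exists_conj hpres τ σ
      have hcomp : act (crv3 aK bK) (ak τ) (act (crv3 aK bK) (rs K σ') Y) = act (crv3 aK bK) (rs K σ) (act (crv3 aK bK) (ak τ) Y) := by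
        have h5 : (ak τ).comp (rs K σ') = (rs K σ).comp (ak τ) := AlgHom.ext fun x => hσ' x
        rw [act_act, act_act, h5]
      rw [map_sub, ← hcomp, y1, y1]
    have h2 : InT hE (act (crv3 aK bK) (ak τ) Y - Y) := by
      apply torsF3 hE hz hzσ hbs hds 2 (act (crv3 aK bK) (ak τ) Y - Y) h1
      rw [show (3 : ℕ) ^ 2 = 3 * 3 from rfl, mul_smul, y3, x3]
    have h4 := h2.three hE
    rw [← e3, y3] at h4
    exact sub_eq_zero.1 h4
  obtain ⟨Q, hQ⟩ := fixed_point (K := K) (F := K) (crv3 aK bK) X (fun τ => hfix τ)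
  obtain ⟨T', U', t1', u1', rfl⟩ := t1
  refine ⟨Q, T', U', t1', u1', ?_⟩
  apply inj
  rw [map_add, map_nsmul, hQ, x2]
  abel

end main

section pull

variable {K₀ K F : Type} [Field K₀] [Field K] [Field F] [Algebra K F]

/-- The point `H` for a pulled back point of the isogenous curve. -/
theorem hpt_dual {k : Type} [Field k] [Algebra k[X] K] [IsGalois K (Sep F)] (ψ : K₀ →+* K)
    {a₀ b₀ z₀ : K₀} {a b ρ zK : K} (hρ : ρ ≠ 0) (ha : a = ρ * ψ a₀)
    (hb : b = ρ ^ 3 * ψ b₀) (h3 : (3 : K₀) ≠ 0) (hb₀ : b₀ ≠ 0) (hd₀ : a₀ ^ 3 - 27 * b₀ ≠ 0)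
    {ι : Pt (crv3 a₀ b₀) K₀ →+ Pt (crv3 a b) K}
    (hι : ∀ (x y : K₀) (hn : ((crv3 a₀ b₀).baseChange K₀).toAffine.Nonsingular x y),
        ∃ hn' : ((crv3 a b).baseChange K).toAffine.Nonsingular (ρ ^ 2 * ψ x) (ρ ^ 3 * ψ y),
          ι (Point.some x y hn) = Point.some (ρ ^ 2 * ψ x) (ρ ^ 3 * ψ y) hn')
    (hz : zK ^ 2 + zK + 1 = 0) (hzψ : zK = ψ z₀) {B : k[X]}
    {P' : Pt (crv3 (3 * a) (a ^ 3 - 27 * b)) K}
    (hP' : P' = 0 ∨ ∃ (x₀ y₀ : K₀) (hn' : ((crv3 (3 * a) (a ^ 3 - 27 * b)).baseChange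
      K).toAffine.Nonsingular (ρ ^ 2 * ψ x₀) (ρ ^ 3 * ψ y₀)), P' = Point.some _ _ hn')
    {c : F} (hc : c ≠ 0) (e : algebraMap K F (algebraMap k[X] K B) =
      c ^ 3 * algebraMap K F (dd (a ^ 3 - 27 * b) P')) :
    HPt F a b zK (fun Q => ∃ P₀ : Pt (crv3 a₀ b₀) K₀, ι P₀ = Q) B := by
  intro hE
  haveI : IsSepClosed (Sep F) := inferInstance
  obtain ⟨H, t, ht0, htt, hD, hHφ⟩ := lift3 hE hz P'
  rw [hzψ] at hD
  obtain ⟨P₀, hP₀⟩ := dual_pull ψ hρ ha hb h3 hb₀ hd₀ hι hP' hD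
  refine ⟨H, t, c, ι P₀, ht0, hc, ⟨P₀, rfl⟩, hP₀.symm, ?_, hHφ⟩
  rw [htt, e, IsScalarTower.algebraMap_apply K F (Sep F)]
  simp only [map_mul, map_pow]

end pull

section points

variable {k K₀ : Type} [Field k] [Field K₀] [Algebra k[X] K₀] [IsFractionRing k[X] K₀]
  {m n : ℕ} {a b : k[X]}
  {L L' K F : Type} [Field L] [Field L'] [Algebra L L'] [Field K] [Algebra L[X] K]
  [Field F] [Algebra L'[X] F] [IsFractionRing L'[X] F] [Algebra K F]

theorem mw_pullj (hT : IsTower L L' K F) (hB : Base3 K₀ m a b) (φ : k →+* L) {q r : L[X]}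
    (hF : Fib φ L' q r m n a b)
    (hpar : ¬ 3 ∣ n ∨ (r = 1 ∧ b.natDegree ≠ 3 * m ∧ (a ^ 3 - 27 * b).natDegree ≠ 3 * m)) :
    ∃ (ψ : K₀ →+* K) (ι : Pt (crv3 (algebraMap k[X] K₀ a) (algebraMap k[X] K₀ b)) K₀ →+
        Pt (crv3 (algebraMap L[X] K (hb q r m (a.map φ)))
          (algebraMap L[X] K (hb q r (3 * m) (b.map φ)))) K),
      (∀ g : k[X], algebraMap L[X] K (pb q r (g.map φ)) =
        (algebraMap L[X] K r) ^ g.natDegree * ψ (algebraMap k[X] K₀ g)) ∧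
      Function.Injective ι ∧
      (∀ (x y : K₀) (hn : ((crv3 (algebraMap k[X] K₀ a)
          (algebraMap k[X] K₀ b)).baseChange K₀).toAffine.Nonsingular x y),
        ∃ hn' : ((crv3 (algebraMap L[X] K (hb q r m (a.map φ)))
          (algebraMap L[X] K (hb q r (3 * m) (b.map φ)))).baseChange K).toAffine.Nonsingular
            (((algebraMap L[X] K r) ^ m) ^ 2 * ψ x) (((algebraMap L[X] K r) ^ m) ^ 3 * ψ y),
          ι (Point.some x y hn) = Point.some _ _ hn') ∧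
      (((∀ x : L, x ^ 2 + x + 1 ≠ 0) ∨ ∃ x : k, x ^ 2 + x + 1 = 0) →
        ∀ P : Pt (crv3 (algebraMap L[X] K (hb q r m (a.map φ)))
          (algebraMap L[X] K (hb q r (3 * m) (b.map φ)))) K,
        ∃ (Q : Pt (crv3 (algebraMap L[X] K (hb q r m (a.map φ)))
          (algebraMap L[X] K (hb q r (3 * m) (b.map φ)))) K)
          (P₀ : Pt (crv3 (algebraMap k[X] K₀ a) (algebraMap k[X] K₀ b)) K₀),
          P = 3 • Q + ι P₀) := by
  haveI := hT.sep
  haveI := hT.fracK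
  haveI : IsSepClosed L' := IsSepClosure.sep_closed L
  haveI : IsSepClosure K (Sep F) := sepKΩ hT.map
  haveI : Algebra.IsSeparable K (Sep F) := IsSepClosure.separable
  haveI : IsGalois K (Sep F) := inferInstance
  have hco := hF.co
  have hq := hF.qp
  have hr0 := hF.r0
  have hr0' : algebraMap L[X] K r ≠ 0 := by simpa using hr0
  have hH := hyp_pull φ hB hF
  obtain ⟨ψ, hψ⟩ := exists_psi (K₀ := K₀) (K := K) φ (q := q) hr0 (fun g hg =>
    pb_ne hco hq ((Polynomial.map_ne_zero_iff φ.injective).2 hg))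
  have ρa := hb_psi φ hψ hB.da
  have ρb : algebraMap L[X] K (hb q r (3 * m) (b.map φ)) =
      ((algebraMap L[X] K r) ^ m) ^ 3 * ψ (algebraMap k[X] K₀ b) := by
    rw [hb_psi φ hψ hB.db, ← pow_mul, mul_comm m 3]
  obtain ⟨ι, hι, hs, hp⟩ := exists_hom3 ψ (pow_ne_zero m hr0') ρa ρb
  refine ⟨ψ, ι, hψ, hι, hs, fun hcase => ?_⟩
  have inj₀ := IsFractionRing.injective k[X] K₀
  have h3₀ : (3 : K₀) ≠ 0 := by
    have h3 : algebraMap k[X] K₀ (C 3) ≠ 0 := by simpa using hB.three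
    rwa [C_ofNat, map_ofNat] at h3
  have hb₀ : algebraMap k[X] K₀ b ≠ 0 := by
    rw [Ne, map_eq_zero_iff _ inj₀]; exact hB.hb
  have hd₀ : (algebraMap k[X] K₀ a) ^ 3 - 27 * algebraMap k[X] K₀ b ≠ 0 := by
    have e : (algebraMap k[X] K₀ a) ^ 3 - 27 * algebraMap k[X] K₀ b =
        algebraMap k[X] K₀ (a ^ 3 - 27 * b) := by
      rw [map_sub, map_mul, map_pow, map_ofNat]
    rw [e, Ne, map_eq_zero_iff _ inj₀]
    exact hB.hd
  have hdisc := disc_pull φ hB hr0 hco hq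
  have h3a := a_pull φ hB hr0 hco hq
  have oB : (∀ x : L, x ^ 2 + x + 1 ≠ 0) ∨ ∀ zK : K, zK ^ 2 + zK + 1 = 0 → ∀ B : L[X], B ≠ 0 →
      (∀ π : L[X], Irreducible π → π ∣ B →
        π ∣ hb q r m (a.map φ) ^ 3 - 27 * hb q r (3 * m) (b.map φ)) →
      ((hb q r m (a.map φ) ^ 3 - 27 * hb q r (3 * m) (b.map φ)).natDegree = 3 * (n * m) →
        3 ∣ B.natDegree) →
      HPt F (algebraMap L[X] K (hb q r m (a.map φ)))
        (algebraMap L[X] K (hb q r (3 * m) (b.map φ))) zK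
        (fun Q => ∃ P₀ : Pt (crv3 (algebraMap k[X] K₀ a) (algebraMap k[X] K₀ b)) K₀, ι P₀ = Q)
        B := by
    rcases hcase with hω | ⟨ω, hω⟩
    · exact Or.inl hω
    right
    intro zK hzK B h1 h2 h4
    -- `zK` is constant
    obtain ⟨z₀, hz₀⟩ : ∃ z₀ : K₀, zK = ψ z₀ := by
      obtain ⟨w, hw⟩ : ∃ w : K, w = ψ (algebraMap k[X] K₀ (C ω)) := ⟨_, rfl⟩
      have hw1 : w ^ 2 + w + 1 = 0 := by
        rw [hw, ← map_pow, ← map_pow, ← C_pow, ← map_add ψ, ← map_add (algebraMap k[X] K₀),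
          ← C_add, ← map_one ψ, ← map_add ψ, ← map_one (algebraMap k[X] K₀),
          ← map_add (algebraMap k[X] K₀), ← C_1, ← C_add, hω, C_0, map_zero, map_zero]
      have hw3 : w ^ 3 = 1 := z3 hw1
      have h5 : (zK - w) * (zK - w ^ 2) = 0 := by
        linear_combination hzK - zK * hw1 + hw3
      rcases mul_eq_zero.1 h5 with h6 | h6
      · exact ⟨_, (sub_eq_zero.1 h6).trans hw⟩
      · exact ⟨(algebraMap k[X] K₀ (C ω)) ^ 2, by rw [map_pow, ← hw]; exact sub_eq_zero.1 h6⟩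
    have hdd : (3 * a) ^ 3 - 27 * (a ^ 3 - 27 * b) ≠ 0 := by
      rw [dual_disc]
      exact mul_ne_zero (C_ne_zero.2 (pow_ne_zero 6 hB.three)) hB.hb
    rw [hdisc] at h2 h4
    have eK : algebraMap L[X] K (hb q r m (a.map φ)) ^ 3 -
        27 * algebraMap L[X] K (hb q r (3 * m) (b.map φ)) =
        algebraMap L[X] K (hb q r (3 * m) ((a ^ 3 - 27 * b).map φ)) := by
      rw [← hdisc, map_sub, map_mul, map_pow, map_ofNat]
    have e3 : 3 * algebraMap L[X] K (hb q r m (a.map φ)) =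
        algebraMap L[X] K (hb q r m ((3 * a).map φ)) := by
      rw [← h3a, map_mul, map_ofNat]
    obtain ⟨P₀, P, c, h, hc, hh, hP, e⟩ := comp_pull (K₀ := K₀) (K := K) φ hB.three
      (three_a.trans hB.da) hB.dd hB.hd hdd hB.sd hB.c2 hr0 hF.npos hψ (fun ξ h => by
        obtain ⟨i1, i2, i3⟩ := hF.fb ξ (by rw [IsRoot.def, eval_mul, IsRoot.def.1 h, mul_zero])
        exact ⟨irr_of_stays i2, i3⟩)
      (by
        rcases hF.rb with h | h | h
        · exact Or.inl h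
        · exact Or.inr (Or.inl h.2)
        · exact Or.inr (Or.inr ⟨irr_of_stays h.2.1, h.2.2⟩))
      (hpar.imp id fun h => ⟨h.1, h.2.2⟩) e3 eK B h1 h2 h4
    obtain ⟨w, hw, ew⟩ := inF (F := F) hT hH.three hc hh e
    refine hpt_dual (F := F) ψ (pow_ne_zero m hr0') ρa ρb h3₀ hb₀ hd₀ hs hzK hz₀ ?_ hw ew
    rcases hP with ⟨-, rfl⟩ | ⟨x, y, h5, h6, -, rfl⟩
    · exact Or.inl rfl
    · exact Or.inr ⟨x, y, h6, rfl⟩
  have key := mw3j (F := F) hT hH rfl rfl (GA := fun T => ∃ P₀ : Pt (crv3 (algebraMap k[X] K₀ a)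
    (algebraMap k[X] K₀ b)) K₀, ι P₀ = T) (GB := fun T => ∃ P₀ : Pt (crv3 (algebraMap k[X] K₀ a)
    (algebraMap k[X] K₀ b)) K₀, ι P₀ = T) ⟨0, map_zero _⟩ (fun A h1 h2 h4 => by
      obtain ⟨P₀, P, c, h, hc, hh, hP, e⟩ := comp_pull (K₀ := K₀) (K := K) φ hB.three hB.da hB.db
        hB.hb hB.hd hB.sb hB.c1 hr0 hF.npos hψ (fun ξ h => by
          obtain ⟨i1, i2, i3⟩ := hF.fb ξ (by rw [IsRoot.def, eval_mul, IsRoot.def.1 h, zero_mul])
          exact ⟨irr_of_stays i2, i3⟩)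
        (by
          rcases hF.rb with h | h | h
          · exact Or.inl h
          · exact Or.inr (Or.inl h.1)
          · exact Or.inr (Or.inr ⟨irr_of_stays h.2.1, h.2.2⟩))
        (hpar.imp id fun h => ⟨h.1, h.2.1⟩) rfl rfl A h1 h2 h4
      obtain ⟨w, hw, ew⟩ := inF (F := F) hT hH.three hc hh e
      exact ⟨P, w, ⟨P₀, hp P₀ P hP⟩, hw, ew⟩) oB
  intro P
  obtain ⟨Q, T, U, ⟨P₀, hP⟩, ⟨P1, hP1⟩, e⟩ := key P
  exact ⟨Q, P₀ + P1, by rw [map_add, hP, hP1]; exact e⟩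

end points

end Pool.Agent.N181.P3
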