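import Pool.Agent.N181.P3.Tate
import Pool.Agent.X243.Gen.Pull3

/-!
Pullbacks of curves `y² + a x y + b y = x³` with complete first descents by rational functions.
-/

set_option autoImplicit false
set_option linter.all false

open Polynomial IsDedekindDomain WeierstrassCurve WeierstrassCurve.Affine
open scoped Classical

namespace Pool.Agent.N181.P3

open Pool.Agent.N181.T3
open Pool.Agent.X243.Gen (pb pb_sum pb_mul pb_C pb_one pb_pow pb_lin pb_map pb_frac pb_ne exists_psi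
  natDegree_pb root_of_prime form_cop)
open Pool.Agent.TH115.GD (Pt act incl rs ak act_zero act_some act_inj act_act IsCoc LocTriv
  fixed_point exists_restrict rs_act_incl Preserves exists_conj IsTower LocallyTrivial Sep Comp
  wFin lt_subT cob_isCoc sepKΩ preserves)

section hb

variable {k L : Type} [Field k] [Field L] (φ : k →+* L)

/-- The pullback of `g` by `q / r`, homogenized in degree `M`: the sum of the `g_i q ^ i r ^ (M - i)`. -/
noncomputable def hb (q r : k[X]) (M : ℕ) (g : k[X]) : k[X] := r ^ (M - g.natDegree) * pb q r g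

theorem hb_map (q r : k[X]) (M : ℕ) (g : k[X]) :
    (hb q r M g).map φ = hb (q.map φ) (r.map φ) M (g.map φ) := by
  rw [hb, hb, Polynomial.map_mul, Polynomial.map_pow, pb_map, natDegree_map]

theorem hb_sum (q r : k[X]) {M : ℕ} {g : k[X]} (hg : g.natDegree ≤ M) :
    hb q r M g = ∑ i ∈ Finset.range (M + 1), C (g.coeff i) * q ^ i * r ^ (M - i) := by
  rw [hb, pb_sum, Finset.mul_sum]
  have h1 : Finset.range (g.natDegree + 1) ⊆ Finset.range (M + 1) := by
    intro i hi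
    rw [Finset.mem_range] at hi ⊢
    omega
  rw [← Finset.sum_subset h1 (fun i hi hi' => by
    rw [Finset.mem_range] at hi'
    rw [coeff_eq_zero_of_natDegree_lt (by omega), C_0, zero_mul, zero_mul])]
  refine Finset.sum_congr rfl fun i hi => ?_
  rw [Finset.mem_range] at hi
  have e : M - i = (M - g.natDegree) + (g.natDegree - i) := by omega
  rw [e, pow_add]
  ring

variable {K₀ K : Type} [Field K₀] [Algebra k[X] K₀] [Field K] [Algebra L[X] K]

theorem hb_psi {q r : L[X]} {ψ : K₀ →+* K}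
    (hψ : ∀ g : k[X], algebraMap L[X] K (pb q r (g.map φ)) =
      (algebraMap L[X] K r) ^ g.natDegree * ψ (algebraMap k[X] K₀ g)) {M : ℕ} {g : k[X]}
    (hg : g.natDegree ≤ M) : algebraMap L[X] K (hb q r M (g.map φ)) =
      (algebraMap L[X] K r) ^ M * ψ (algebraMap k[X] K₀ g) := by
  rw [hb, map_mul, map_pow, hψ, natDegree_map, ← mul_assoc, ← pow_add]
  congr 2
  omega

end hb

section fac

variable {k L : Type} [Field k] [Field L] (φ : k →+* L)

/-- Polynomials supported on the pullback of `g`. -/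
theorem fac {q r : L[X]} {n M : ℕ} {g : k[X]} (hg : g ≠ 0) (hs : g.Splits)
    (hirr : ∀ ξ, g.IsRoot ξ → Irreducible (q - C (φ ξ) * r) ∧ (q - C (φ ξ) * r).natDegree = n)
    (hr : r = 1 ∨ g.natDegree = M ∨ (Irreducible r ∧ r.natDegree = n)) :
    ∀ A : L[X], A ≠ 0 → (∀ π : L[X], Irreducible π → π ∣ A → π ∣ hb q r M (g.map φ)) →
      ∃ (c : L) (j : ℕ) (A₀ : k[X]), c ≠ 0 ∧ A₀ ≠ 0 ∧
        (∀ π : k[X], Irreducible π → π ∣ A₀ → π ∣ g) ∧ (g.natDegree = M → j = 0) ∧
        A = C c * (r ^ j * pb q r (A₀.map φ)) ∧ A.natDegree = n * (j + A₀.natDegree) := by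
  intro A
  refine WfDvdMonoid.induction_on_irreducible A ?_ ?_ ?_
  · intro h
    exact absurd rfl h
  · intro u hu _ _
    obtain ⟨c, hc, rfl⟩ := Polynomial.isUnit_iff.1 hu
    refine ⟨c, 0, 1, hc.ne_zero, one_ne_zero, fun π h1 h2 => absurd (isUnit_of_dvd_one h2)
      h1.not_isUnit, fun _ => rfl, ?_, ?_⟩
    · rw [Polynomial.map_one, pb_one, pow_zero, mul_one, mul_one]
    · rw [natDegree_C, natDegree_one, add_zero, mul_zero]
  · intro A' p hA' hp ih _ hd
    obtain ⟨c, j, A₀, hc, hA₀, h1, h2, h3, h4⟩ := ih hA' fun π h1 h2 => hd π h1 (h2.mul_left _)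
    have h5 := hd p hp (dvd_mul_right _ _)
    rw [hb, natDegree_map] at h5
    rcases hp.prime.dvd_or_dvd h5 with h6 | h6
    · have h7 : M - g.natDegree ≠ 0 := by
        intro h0
        rw [h0, pow_zero] at h6
        exact hp.not_isUnit (isUnit_of_dvd_one h6)
      have h8 := hp.prime.dvd_of_dvd_pow h6
      have hr' : Irreducible r ∧ r.natDegree = n := by
        rcases hr with h | h | h
        · rw [h] at h8
          exact absurd (isUnit_of_dvd_one h8) hp.not_isUnit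
        · omega
        · exact h
      obtain ⟨x, hx⟩ := (hp.associated_of_dvd hr'.1 h8).symm
      obtain ⟨u, hu, hux⟩ := Polynomial.isUnit_iff.1 x.isUnit
      have e : p = C u * r := by rw [← hx, ← hux, mul_comm]
      refine ⟨u * c, j + 1, A₀, mul_ne_zero hu.ne_zero hc, hA₀, h1, fun h => absurd h (by omega),
        ?_, ?_⟩
      · rw [e, h3, C_mul]
        ring
      · rw [natDegree_mul hp.ne_zero hA', h4, e, natDegree_C_mul hu.ne_zero, hr'.2]
        ring
    · obtain ⟨ξ, hξ, h7⟩ := root_of_prime φ hg hs hp.prime h6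
      obtain ⟨i1, i2⟩ := hirr ξ hξ
      obtain ⟨x, hx⟩ := (hp.associated_of_dvd i1 h7).symm
      obtain ⟨u, hu, hux⟩ := Polynomial.isUnit_iff.1 x.isUnit
      have e : p = C u * (q - C (φ ξ) * r) := by rw [← hx, ← hux, mul_comm]
      refine ⟨u * c, j, (X - C ξ) * A₀, mul_ne_zero hu.ne_zero hc,
        mul_ne_zero (X_sub_C_ne_zero ξ) hA₀, ?_, h2, ?_, ?_⟩
      · intro π hπ hd'
        rcases hπ.prime.dvd_or_dvd hd' with h | h
        · exact h.trans (dvd_iff_isRoot.2 hξ)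
        · exact h1 π hπ h
      · rw [e, h3, Polynomial.map_mul, Polynomial.map_sub, map_X, map_C, pb_mul, pb_lin, C_mul]
        ring
      · rw [natDegree_mul hp.ne_zero hA', h4, e, natDegree_C_mul hu.ne_zero, i2,
          natDegree_mul (X_sub_C_ne_zero ξ) hA₀, natDegree_X_sub_C]
        ring

/-- A polynomial in which an irreducible polynomial has a multiplicity not divisible by three. -/
theorem not_cst_cube' {π g : L[X]} (hπ : Irreducible π) {e : ℕ} (he : ¬ 3 ∣ e) (hg : ¬ π ∣ g)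
    (u : L) (w : L[X]) : π ^ e * g ≠ C u * w ^ 3 := by
  intro h
  have hg0 : g ≠ 0 := by
    rintro rfl
    exact hg (dvd_zero _)
  have h0 : π ^ e * g ≠ 0 := mul_ne_zero (pow_ne_zero _ hπ.ne_zero) hg0
  have hw : w ≠ 0 := by
    rintro rfl
    rw [zero_pow three_ne_zero, mul_zero] at h
    exact h0 h
  have hu : u ≠ 0 := by
    rintro rfl
    rw [C_0, zero_mul] at h
    exact h0 h
  have hcu : IsUnit (C u : L[X]) := isUnit_C.2 (isUnit_iff_ne_zero.2 hu)
  have hfin : FiniteMultiplicity π w := FiniteMultiplicity.of_prime_left hπ.prime hw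
  obtain ⟨w', hw', hnd⟩ := hfin.exists_eq_pow_mul_and_not_dvd
  set j := multiplicity π w with hj
  have h1 : π ^ e * g = π ^ (3 * j) * (C u * w' ^ 3) := by
    rw [h, hw', mul_pow, ← pow_mul, mul_comm j 3]
    ring
  have hnd3 : ¬ π ∣ C u * w' ^ 3 := by
    intro h2
    exact hnd (hπ.prime.dvd_of_dvd_pow (hcu.dvd_mul_left.1 h2))
  rcases lt_trichotomy e (3 * j) with h2 | h2 | h2
  · obtain ⟨i, hi⟩ : ∃ i, 3 * j = e + (i + 1) := ⟨3 * j - e - 1, by omega⟩
    rw [hi, pow_add, mul_assoc] at h1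
    have h3 := mul_left_cancel₀ (pow_ne_zero e hπ.ne_zero) h1
    apply hg
    rw [h3, pow_succ', mul_assoc]
    exact dvd_mul_right _ _
  · exact he ⟨j, h2⟩
  · obtain ⟨i, hi⟩ : ∃ i, e = 3 * j + (i + 1) := ⟨e - 3 * j - 1, by omega⟩
    rw [hi, pow_add, mul_assoc] at h1
    have h3 := mul_left_cancel₀ (pow_ne_zero _ hπ.ne_zero) h1
    apply hnd3
    rw [← h3, pow_succ', mul_assoc]
    exact dvd_mul_right _ _

end fac

section point

variable {K₀ K : Type} [Field K₀] [Field K]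

/-- The point `P` is the image of `P₀` under `(x, y) ↦ (ρ² ψ(x), ρ³ ψ(y))`. -/
def Pulled (ψ : K₀ →+* K) (ρ : K) {W₀ : WeierstrassCurve K₀} {W : WeierstrassCurve K}
    (P₀ : Pt W₀ K₀) (P : Pt W K) : Prop :=
  (P₀ = 0 ∧ P = 0) ∨ ∃ (x y : K₀) (h : (W₀.baseChange K₀).toAffine.Nonsingular x y)
    (h' : (W.baseChange K).toAffine.Nonsingular (ρ ^ 2 * ψ x) (ρ ^ 3 * ψ y)),
    P₀ = Point.some x y h ∧ P = Point.some _ _ h'

theorem crv3_eq {F : Type*} [Field F] {a b x y : F}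
    (h : (((crv3 a b).baseChange F).toAffine).Nonsingular x y) :
    y ^ 2 + a * x * y + b * y = x ^ 3 := by
  have h1 := h.1
  rw [Affine.equation_iff] at h1
  have e1 : ((crv3 a b).baseChange F).toAffine.a₁ = a := rfl
  have e2 : ((crv3 a b).baseChange F).toAffine.a₂ = 0 := map_zero _
  have e3 : ((crv3 a b).baseChange F).toAffine.a₃ = b := rfl
  have e4 : ((crv3 a b).baseChange F).toAffine.a₄ = 0 := map_zero _
  have e6 : ((crv3 a b).baseChange F).toAffine.a₆ = 0 := map_zero _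
  rw [e1, e2, e3, e4, e6] at h1
  linear_combination h1

theorem pt_pull3 (ψ : K₀ →+* K) {a₀ b₀ : K₀} {a b ρ : K} (hρ : ρ ≠ 0) (ha : a = ρ * ψ a₀)
    (hb : b = ρ ^ 3 * ψ b₀) (h3 : (3 : K₀) ≠ 0) (hb₀ : b₀ ≠ 0) (hd₀ : a₀ ^ 3 - 27 * b₀ ≠ 0)
    (P : Pt (crv3 a₀ b₀) K₀) :
    ∃ Q : Pt (crv3 a b) K, Pulled ψ ρ P Q ∧ ∃ h : K, h ≠ 0 ∧ ψ (dd b₀ P) = h ^ 3 * dd b Q := by
  have hinj := ψ.injective
  have h3' : (3 : K) ≠ 0 := by
    rw [← map_ofNat ψ 3]
    exact (map_ne_zero_iff _ hinj).2 h3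
  have hρ3 : ρ ^ 3 ≠ 0 := pow_ne_zero 3 hρ
  have hb' : b ≠ 0 := by rw [hb]; exact mul_ne_zero hρ3 ((map_ne_zero_iff _ hinj).2 hb₀)
  have hd' : a ^ 3 - 27 * b ≠ 0 := by
    have e : a ^ 3 - 27 * b = ρ ^ 3 * ψ (a₀ ^ 3 - 27 * b₀) := by
      rw [ha, hb, map_sub, map_mul, map_pow, map_ofNat]
      ring
    rw [e]
    exact mul_ne_zero hρ3 ((map_ne_zero_iff _ hinj).2 hd₀)
  have hE : IsE ((crv3 a b).baseChange K).toAffine a b := isE (a := a) (b := b) h3' hb' hd' K
  cases P with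
  | zero =>
    refine ⟨0, Or.inl ⟨rfl, rfl⟩, 1, one_ne_zero, ?_⟩
    show ψ 1 = 1 ^ 3 * 1
    rw [map_one]; ring
  | some x y hn =>
    have hy : y ^ 2 + a₀ * x * y + b₀ * y = x ^ 3 := crv3_eq hn
    have hQ : ((crv3 a b).baseChange K).toAffine.Nonsingular (ρ ^ 2 * ψ x) (ρ ^ 3 * ψ y) := by
      rw [hE.nonsingular]
      have h4 := congrArg ψ hy
      rw [map_pow, map_add, map_add, map_mul, map_mul, map_mul, map_pow] at h4
      rw [ha, hb]
      linear_combination ρ ^ 6 * h4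
    refine ⟨Point.some _ _ hQ, Or.inr ⟨x, y, hn, hQ, rfl, rfl⟩, ?_⟩
    by_cases hx : y = 0
    · refine ⟨ρ, hρ, ?_⟩
      show ψ (if y = 0 then b₀⁻¹ else y) = _ * (if ρ ^ 3 * ψ y = 0 then b⁻¹ else ρ ^ 3 * ψ y)
      rw [if_pos hx, if_pos (by rw [hx, map_zero, mul_zero]), hb, map_inv₀]
      field_simp
    · refine ⟨ρ⁻¹, inv_ne_zero hρ, ?_⟩
      have hx' : ψ y ≠ 0 := (map_ne_zero_iff _ hinj).2 hx
      show ψ (if y = 0 then b₀⁻¹ else y) = _ * (if ρ ^ 3 * ψ y = 0 then b⁻¹ else ρ ^ 3 * ψ y)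
      rw [if_neg hx, if_neg (mul_ne_zero hρ3 hx')]
      field_simp

end point

/-- The first descent on `y² + a x y + b y = x³` is complete (`m` is a bound for the degree of `a`, and
`3 m` for the degree of `b`): every polynomial `A` whose irreducible factors divide `b`, and whose degree
is divisible by `3` if the degree of `b` is `3 m`, is the class of a point up to constants and cubes. -/
def Comp3 {k : Type} [Field k] (K : Type) [Field K] [Algebra k[X] K] (m : ℕ) (a b : k[X]) : Prop :=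
  ∀ A : k[X], A ≠ 0 → (∀ π : k[X], Irreducible π → π ∣ A → π ∣ b) →
    (b.natDegree = 3 * m → 3 ∣ A.natDegree) →
    ∃ (P : Pt (crv3 (algebraMap k[X] K a) (algebraMap k[X] K b)) K) (c : k) (h : K), c ≠ 0 ∧
      h ≠ 0 ∧ algebraMap k[X] K (C c * A) = h ^ 3 * dd (algebraMap k[X] K b) P

section main

variable {k L K₀ K : Type} [Field k] [Field L] [Field K₀] [Algebra k[X] K₀] [IsFractionRing k[X] K₀]
  [Field K] [Algebra L[X] K] [IsFractionRing L[X] K]

theorem comp_pull (φ : k →+* L) (h3 : (3 : k) ≠ 0) {m n : ℕ} {a b : k[X]}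
    (ha : a.natDegree ≤ m) (hbm : b.natDegree ≤ 3 * m) (hb0 : b ≠ 0) (hd0 : a ^ 3 - 27 * b ≠ 0)
    (hsb : b.Splits) (hC : Comp3 K₀ m a b) {q r : L[X]} (hr0 : r ≠ 0) (hn0 : 0 < n)
    {ψ : K₀ →+* K}
    (hψ : ∀ g : k[X], algebraMap L[X] K (pb q r (g.map φ)) =
      (algebraMap L[X] K r) ^ g.natDegree * ψ (algebraMap k[X] K₀ g))
    (hirr : ∀ ξ, b.IsRoot ξ → Irreducible (q - C (φ ξ) * r) ∧ (q - C (φ ξ) * r).natDegree = n)
    (hr : r = 1 ∨ b.natDegree = 3 * m ∨ (Irreducible r ∧ r.natDegree = n))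
    (hpar : ¬ 3 ∣ n ∨ (r = 1 ∧ b.natDegree ≠ 3 * m)) {aK bK : K}
    (haK : aK = algebraMap L[X] K (hb q r m (a.map φ)))
    (hbK : bK = algebraMap L[X] K (hb q r (3 * m) (b.map φ))) :
    ∀ A : L[X], A ≠ 0 → (∀ π : L[X], Irreducible π → π ∣ A → π ∣ hb q r (3 * m) (b.map φ)) →
      ((hb q r (3 * m) (b.map φ)).natDegree = 3 * (n * m) → 3 ∣ A.natDegree) →
      ∃ (P₀ : Pt (crv3 (algebraMap k[X] K₀ a) (algebraMap k[X] K₀ b)) K₀)
        (P : Pt (crv3 aK bK) K) (c : L) (h : K), c ≠ 0 ∧ h ≠ 0 ∧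
        Pulled ψ ((algebraMap L[X] K r) ^ m) P₀ P ∧
        algebraMap L[X] K (C c * A) = h ^ 3 * dd bK P := by
  intro A hA0 hAd hAdeg
  obtain ⟨c, j, A₀, hc, hA₀, h1, h2, h4, h5⟩ := fac φ (M := 3 * m) hb0 hsb hirr hr A hA0 hAd
  have hr0' : algebraMap L[X] K r ≠ 0 := by simpa using hr0
  have inj₀ := IsFractionRing.injective k[X] K₀
  have h3₀ : (3 : K₀) ≠ 0 := by
    have h3 : algebraMap k[X] K₀ (C 3) ≠ 0 := by simpa using h3
    rwa [C_ofNat, map_ofNat] at h3
  have Db := natDegree_pb φ hb0 hsb hirr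
  -- the degree of the pullback of `b`
  have hdeg : r ≠ 1 ∨ b.natDegree = 3 * m →
      (hb q r (3 * m) (b.map φ)).natDegree = 3 * (n * m) := by
    intro hcase
    have hne : pb q r (b.map φ) ≠ 0 := by
      intro h0
      have := hψ b
      rw [h0, map_zero] at this
      rcases mul_eq_zero.1 this.symm with h | h
      · exact pow_ne_zero _ hr0' h
      · rw [map_eq_zero, map_eq_zero_iff _ inj₀] at h
        exact hb0 h
    rw [hb, natDegree_mul (pow_ne_zero _ hr0) hne, natDegree_pow, Db, natDegree_map]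
    rcases hcase with h | h
    · rcases hr with h' | h' | h'
      · exact absurd h' h
      · rw [h', Nat.sub_self, zero_mul, zero_add]
        ring
      · rw [h'.2, mul_comm n b.natDegree, ← add_mul, Nat.sub_add_cancel hbm]
        ring
    · rw [h, Nat.sub_self, zero_mul, zero_add]
      ring
  have h3dvd : ∀ {x : ℕ}, ¬ 3 ∣ n → 3 ∣ n * x → 3 ∣ x := fun hn h =>
    ((Nat.Prime.dvd_mul Nat.prime_three).1 h).resolve_left hn
  -- the condition for `A₀`
  have hdeg₀ : b.natDegree = 3 * m → 3 ∣ A₀.natDegree := by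
    intro h
    have h6 := hAdeg (hdeg (Or.inr h))
    rw [h5, h2 h, zero_add] at h6
    rcases hpar with h7 | h7
    · exact h3dvd h7 h6
    · exact absurd h h7.2
  -- the power of `r` is a cube
  obtain ⟨w, hw, ew⟩ : ∃ w : K, w ≠ 0 ∧ (algebraMap L[X] K r) ^ (j + A₀.natDegree) = w ^ 3 := by
    by_cases hr1 : r = 1
    · exact ⟨1, one_ne_zero, by rw [hr1, map_one, one_pow, one_pow]⟩
    · have h6 := hAdeg (hdeg (Or.inl hr1))
      rw [h5] at h6
      rcases hpar with h7 | h7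
      · obtain ⟨i, hi⟩ := h3dvd h7 h6
        exact ⟨(algebraMap L[X] K r) ^ i, pow_ne_zero _ hr0', by rw [hi, ← pow_mul, mul_comm]⟩
      · exact absurd h7.1 hr1
  obtain ⟨P₀, c1, g1, hc1, hg1, e1⟩ := hC A₀ hA₀ h1 hdeg₀
  have hdK : (algebraMap k[X] K₀ a) ^ 3 - 27 * algebraMap k[X] K₀ b ≠ 0 := by
    have e : (algebraMap k[X] K₀ a) ^ 3 - 27 * algebraMap k[X] K₀ b =
        algebraMap k[X] K₀ (a ^ 3 - 27 * b) := by
      rw [map_sub, map_mul, map_pow, map_ofNat]
    rw [e, Ne, map_eq_zero_iff _ inj₀]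
    exact hd0
  have ρa : aK = (algebraMap L[X] K r) ^ m * ψ (algebraMap k[X] K₀ a) := by
    rw [haK, hb_psi φ hψ ha]
  have ρb : bK = ((algebraMap L[X] K r) ^ m) ^ 3 * ψ (algebraMap k[X] K₀ b) := by
    rw [hbK, hb_psi φ hψ hbm, ← pow_mul, mul_comm m 3]
  obtain ⟨Q, hQ, u, hu, eu⟩ := pt_pull3 ψ (pow_ne_zero m hr0') ρa ρb h3₀ (by simpa using hb0) hdK P₀
  have hψC : ∀ c : k, ψ (algebraMap k[X] K₀ (C c)) = algebraMap L[X] K (C (φ c)) := by
    intro c
    have := hψ (C c)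
    rw [map_C, pb_C, natDegree_C, pow_zero, one_mul] at this
    exact this.symm
  refine ⟨P₀, Q, φ c1 * c⁻¹, w * (ψ g1 * u), mul_ne_zero ((map_ne_zero_iff _ φ.injective).2 hc1)
    (inv_ne_zero hc), mul_ne_zero hw (mul_ne_zero ((map_ne_zero_iff _ ψ.injective).2 hg1) hu),
    hQ, ?_⟩
  have k1 : C (φ c1 * c⁻¹) * A = C (φ c1) * (r ^ j * pb q r (A₀.map φ)) := by
    rw [h4]
    have k3 : C c⁻¹ * C c = (1 : L[X]) := by
      rw [← C_mul, inv_mul_cancel₀ hc, C_1]
    rw [C_mul]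
    linear_combination C (φ c1) * (r ^ j * pb q r (A₀.map φ)) * k3
  have k2 : algebraMap L[X] K (C (φ c1) * (r ^ j * pb q r (A₀.map φ))) =
      w ^ 3 * ψ (algebraMap k[X] K₀ (C c1 * A₀)) := by
    rw [map_mul, map_mul, map_pow, hψ, map_mul (algebraMap k[X] K₀), map_mul ψ, hψC, ← ew, pow_add]
    ring
  rw [k1, k2, e1, map_mul ψ, map_pow ψ, eu]
  ring

end main

end Pool.Agent.N181.P3
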