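import Pool.Agent.N181.P3.Pull

/-!
Scaling the coordinates of a Weierstrass curve, and the homomorphism given by the pullback of points.
-/

set_option autoImplicit false
set_option linter.all false

open Polynomial WeierstrassCurve WeierstrassCurve.Affine
open scoped Classical

namespace Pool.Agent.N181.P3

open Pool.Agent.N181.T3
open Pool.Agent.TH115.GD (Pt act)

section scale

variable {K : Type} [Field K] {W W' : Affine K} {ρ : K}

/-- The coefficients of `W'` are those of `W`, scaled by `ρ`. -/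
structure Scaled (W W' : Affine K) (ρ : K) : Prop where
  ne : ρ ≠ 0
  a1 : W'.a₁ = ρ * W.a₁
  a2 : W'.a₂ = ρ ^ 2 * W.a₂
  a3 : W'.a₃ = ρ ^ 3 * W.a₃
  a4 : W'.a₄ = ρ ^ 4 * W.a₄
  a6 : W'.a₆ = ρ ^ 6 * W.a₆

theorem Scaled.nons (h : Scaled W W' ρ) {x y : K} (hn : W.Nonsingular x y) :
    W'.Nonsingular (ρ ^ 2 * x) (ρ ^ 3 * y) := by
  rw [W.nonsingular_iff, W.equation_iff] at hn
  rw [W'.nonsingular_iff, W'.equation_iff, h.a1, h.a2, h.a3, h.a4, h.a6]
  obtain ⟨h1, h2⟩ := hn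
  refine ⟨by linear_combination ρ ^ 6 * h1, h2.imp ?_ ?_⟩
  · intro h3 h4
    apply h3
    apply mul_left_cancel₀ (pow_ne_zero 4 h.ne)
    linear_combination h4
  · intro h3 h4
    apply h3
    apply mul_left_cancel₀ (pow_ne_zero 3 h.ne)
    linear_combination h4

theorem Scaled.negY (h : Scaled W W' ρ) (x y : K) :
    W'.negY (ρ ^ 2 * x) (ρ ^ 3 * y) = ρ ^ 3 * W.negY x y := by
  simp only [WeierstrassCurve.Affine.negY, h.a1, h.a3]
  ring

theorem Scaled.slope (h : Scaled W W' ρ) (x₁ x₂ y₁ y₂ : K) :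
    W'.slope (ρ ^ 2 * x₁) (ρ ^ 2 * x₂) (ρ ^ 3 * y₁) (ρ ^ 3 * y₂) = ρ * W.slope x₁ x₂ y₁ y₂ := by
  have h2 := pow_ne_zero 2 h.ne
  have h3 := pow_ne_zero 3 h.ne
  have hρ := h.ne
  have ex : ρ ^ 2 * x₁ = ρ ^ 2 * x₂ ↔ x₁ = x₂ := mul_right_inj' h2
  have ey : ρ ^ 3 * y₁ = W'.negY (ρ ^ 2 * x₂) (ρ ^ 3 * y₂) ↔ y₁ = W.negY x₂ y₂ := by
    rw [h.negY, mul_right_inj' h3]
  unfold WeierstrassCurve.Affine.slope
  by_cases hx : x₁ = x₂
  · by_cases hy : y₁ = W.negY x₂ y₂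
    · rw [if_pos (ex.2 hx), if_pos (ey.2 hy), if_pos hx, if_pos hy, mul_zero]
    · rw [if_pos (ex.2 hx), if_neg (fun h => hy (ey.1 h)), if_pos hx, if_neg hy, h.negY, ← mul_sub,
        h.a1, h.a2, h.a4]
      have e : 3 * (ρ ^ 2 * x₁) ^ 2 + 2 * (ρ ^ 2 * W.a₂) * (ρ ^ 2 * x₁) + ρ ^ 4 * W.a₄ -
          ρ * W.a₁ * (ρ ^ 3 * y₁) = ρ ^ 3 * (ρ * (3 * x₁ ^ 2 + 2 * W.a₂ * x₁ + W.a₄ -
            W.a₁ * y₁)) := by ring
      rw [e, mul_div_mul_left _ _ h3, mul_div_assoc]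
  · rw [if_neg (fun h => hx (ex.1 h)), if_neg hx, ← mul_sub, ← mul_sub]
    have e : ρ ^ 3 * (y₁ - y₂) = ρ ^ 2 * (ρ * (y₁ - y₂)) := by ring
    rw [e, mul_div_mul_left _ _ h2, mul_div_assoc]

/-- The map on the points. -/
def scaleFun (h : Scaled W W' ρ) : W.Point → W'.Point
  | .zero => 0
  | .some x y hn => Point.some _ _ (h.nons hn)

/-- The homomorphism of the groups of points. -/
def scaleHom (h : Scaled W W' ρ) : W.Point →+ W'.Point where
  toFun := scaleFun h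
  map_zero' := rfl
  map_add' := by
    intro P Q
    cases P with
    | zero =>
      show scaleFun h (0 + Q) = 0 + scaleFun h Q
      rw [zero_add, zero_add]
    | some x₁ y₁ h₁ =>
      cases Q with
      | zero =>
        show scaleFun h (Point.some x₁ y₁ h₁ + 0) = scaleFun h (Point.some x₁ y₁ h₁) + 0
        rw [add_zero, add_zero]
      | some x₂ y₂ h₂ =>
        show scaleFun h (Point.some x₁ y₁ h₁ + Point.some x₂ y₂ h₂) =
          Point.some _ _ (h.nons h₁) + Point.some _ _ (h.nons h₂)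
        have ex : ρ ^ 2 * x₁ = ρ ^ 2 * x₂ ↔ x₁ = x₂ := mul_right_inj' (pow_ne_zero 2 h.ne)
        have ey : ρ ^ 3 * y₁ = W'.negY (ρ ^ 2 * x₂) (ρ ^ 3 * y₂) ↔ y₁ = W.negY x₂ y₂ := by
          rw [h.negY, mul_right_inj' (pow_ne_zero 3 h.ne)]
        by_cases hxy : x₁ = x₂ ∧ y₁ = W.negY x₂ y₂
        · rw [Point.add_of_Y_eq hxy.1 hxy.2, Point.add_of_Y_eq (ex.2 hxy.1) (ey.2 hxy.2)]
          rfl
        · rw [Point.add_some hxy, Point.add_some (fun h' => hxy ⟨ex.1 h'.1, ey.1 h'.2⟩)]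
          show Point.some _ _ _ = Point.some _ _ _
          have e := h.slope x₁ x₂ y₁ y₂
          have eX : ρ ^ 2 * W.addX x₁ x₂ (W.slope x₁ x₂ y₁ y₂) = W'.addX (ρ ^ 2 * x₁) (ρ ^ 2 * x₂)
              (W'.slope (ρ ^ 2 * x₁) (ρ ^ 2 * x₂) (ρ ^ 3 * y₁) (ρ ^ 3 * y₂)) := by
            rw [e]
            simp only [WeierstrassCurve.Affine.addX, h.a1, h.a2]
            ring
          have eY : ρ ^ 3 * W.addY x₁ x₂ y₁ (W.slope x₁ x₂ y₁ y₂) = W'.addY (ρ ^ 2 * x₁)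
              (ρ ^ 2 * x₂) (ρ ^ 3 * y₁)
              (W'.slope (ρ ^ 2 * x₁) (ρ ^ 2 * x₂) (ρ ^ 3 * y₁) (ρ ^ 3 * y₂)) := by
            rw [e]
            simp only [WeierstrassCurve.Affine.addY, WeierstrassCurve.Affine.negAddY,
              WeierstrassCurve.Affine.addX, WeierstrassCurve.Affine.negY, h.a1, h.a2, h.a3]
            ring
          simp only [eX, eY]

theorem scaleHom_inj (h : Scaled W W' ρ) : Function.Injective (scaleHom h) := by
  intro P Q e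
  cases P with
  | zero =>
    cases Q with
    | zero => rfl
    | some x y hn =>
      have e' : (0 : W'.Point) = Point.some _ _ (h.nons hn) := e
      cases e'
  | some x y hn =>
    cases Q with
    | zero =>
      have e' : Point.some _ _ (h.nons hn) = (0 : W'.Point) := e
      cases e'
    | some x' y' hn' =>
      have e' : (Point.some _ _ (h.nons hn) : W'.Point) = Point.some _ _ (h.nons hn') := e
      have h1 := Point.some.inj e'
      have hx : x = x' := mul_left_cancel₀ (pow_ne_zero 2 h.ne) h1.1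
      have hy : y = y' := mul_left_cancel₀ (pow_ne_zero 3 h.ne) h1.2
      subst hx hy
      rfl

end scale

section hom

variable {K₀ K : Type} [Field K₀] [Field K]

/-- **The pullback of points** `(x, y) ↦ (ρ² ψ(x), ρ³ ψ(y))` is an injective homomorphism. -/
theorem exists_hom3 (ψ : K₀ →+* K) {a₀ b₀ : K₀} {a b ρ : K} (hρ : ρ ≠ 0) (ha : a = ρ * ψ a₀)
    (hb : b = ρ ^ 3 * ψ b₀) :
    ∃ ι : Pt (crv3 a₀ b₀) K₀ →+ Pt (crv3 a b) K, Function.Injective ι ∧
      (∀ (x y : K₀) (hn : ((crv3 a₀ b₀).baseChange K₀).toAffine.Nonsingular x y),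
        ∃ hn' : ((crv3 a b).baseChange K).toAffine.Nonsingular (ρ ^ 2 * ψ x) (ρ ^ 3 * ψ y),
          ι (Point.some x y hn) = Point.some (ρ ^ 2 * ψ x) (ρ ^ 3 * ψ y) hn') ∧
      ∀ (P₀ : Pt (crv3 a₀ b₀) K₀) (P : Pt (crv3 a b) K), Pulled ψ ρ P₀ P → ι P₀ = P := by
  letI : Algebra K₀ K := ψ.toAlgebra
  have hψ : algebraMap K₀ K = ψ := rfl
  have hs : Scaled ((crv3 a₀ b₀).baseChange K).toAffine ((crv3 a b).baseChange K).toAffine ρ := by
    refine ⟨hρ, ?_, ?_, ?_, ?_, ?_⟩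
    · exact ha
    · show (algebraMap K K) (0 : K) = ρ ^ 2 * (algebraMap K₀ K) (0 : K₀)
      rw [map_zero, map_zero, mul_zero]
    · exact hb
    · show (algebraMap K K) (0 : K) = ρ ^ 4 * (algebraMap K₀ K) (0 : K₀)
      rw [map_zero, map_zero, mul_zero]
    · show (algebraMap K K) (0 : K) = ρ ^ 6 * (algebraMap K₀ K) (0 : K₀)
      rw [map_zero, map_zero, mul_zero]
  have hsome : ∀ (x y : K₀) (hn : ((crv3 a₀ b₀).baseChange K₀).toAffine.Nonsingular x y),
        ∃ hn' : ((crv3 a b).baseChange K).toAffine.Nonsingular (ρ ^ 2 * ψ x) (ρ ^ 3 * ψ y),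
          ((scaleHom hs).comp (act (crv3 a₀ b₀) (Algebra.ofId K₀ K))) (Point.some x y hn) =
            Point.some (ρ ^ 2 * ψ x) (ρ ^ 3 * ψ y) hn' := by
    intro x y hn
    have h' := ((crv3 a₀ b₀).toAffine.baseChange_nonsingular (f := Algebra.ofId K₀ K)
        (Algebra.ofId K₀ K).toRingHom.injective x y).mpr hn
    exact ⟨hs.nons h', rfl⟩
  refine ⟨(scaleHom hs).comp (act (crv3 a₀ b₀) (Algebra.ofId K₀ K)), ?_, hsome, ?_⟩
  · exact (scaleHom_inj hs).comp (Point.map_injective (W' := (crv3 a₀ b₀).toAffine)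
      (f := Algebra.ofId K₀ K))
  · rintro P₀ P (⟨rfl, rfl⟩ | ⟨x, y, hn, hn', rfl, rfl⟩)
    · exact map_zero _
    · obtain ⟨h', e'⟩ := hsome x y hn
      exact e'

end hom

end Pool.Agent.N181.P3
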