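import Pool.Agent.N181.T3.SelI
import Pool.Agent.N181.T3.MW

/-!
The criterion for elliptic surfaces with a section of order three, with the conditions at infinity, in
terms of points on the curve and on the isogenous curve.
-/

set_option autoImplicit false
set_option linter.all false

open Polynomial IsDedekindDomain WeierstrassCurve WeierstrassCurve.Affine
open scoped Classical

namespace Pool.Agent.N181.P3

open Pool.Agent.N181.T3
open Pool.Agent.TH115.GD (Pt act incl rs ak act_zero act_some act_inj act_act IsCoc LocTriv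
  fixed_point exists_restrict rs_act_incl Preserves exists_conj IsTower LocallyTrivial Sep Comp
  wFin lt_subT cob_isCoc sepKΩ preserves)

section main

variable {k k' K F : Type} [Field k] [Field k'] [Algebra k k'] [Field K] [Algebra k[X] K]
    [Field F] [Algebra k'[X] F] [IsFractionRing k'[X] F] [Algebra K F]

/-- A point of the isogenous curve. -/
theorem hpt_of {k K : Type} [Field k] [Field K] [Algebra k[X] K] [Algebra K F]
    [IsGalois K (Sep F)] {a b zK : K}
    (h3 : (3 : K) ≠ 0) (hb : b ≠ 0) (hd : a ^ 3 - 27 * b ≠ 0)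
    (hzK : zK ^ 2 + zK + 1 = 0) {B : k[X]}
    (h : ∃ (P : Pt (crv3 (3 * a) (a ^ 3 - 27 * b)) K) (c : F), c ≠ 0 ∧
      algebraMap K F (algebraMap k[X] K B) = c ^ 3 * algebraMap K F (dd (a ^ 3 - 27 * b) P)) :
    HPt F a b zK (fun _ => True) B := by
  intro hE
  obtain ⟨P, c, hc, e⟩ := h
  obtain ⟨H, t, ht0, htt, hHφ⟩ := lift2 hE hzK P
  obtain ⟨Q, hQ⟩ := fixed_point (K := K) (F := K) (crv3 a b) (H + H + H) (fun τ => by
    have h5 : act (crv3 a b) (rs K τ) H = H + (act (crv3 a b) (rs K τ) H - H) := by abel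
    have h6 := (hHφ (rs K τ)).1.three hE
    rw [map_add, map_add]
    conv_lhs => rw [h5]
    calc _ = H + H + H + ((act (crv3 a b) (rs K τ) H - H) +
        (act (crv3 a b) (rs K τ) H - H) + (act (crv3 a b) (rs K τ) H - H)) := by abel
      _ = _ := by rw [h6, add_zero])
  refine ⟨H, t, c, Q, ht0, hc, trivial, hQ.symm, ?_, hHφ⟩
  rw [htt, e, IsScalarTower.algebraMap_apply K F (Sep F)]
  simp only [map_mul, map_pow]

/-- The hypotheses on `b` and `a ^ 3 - 27 b`; `n` bounds the degree of `a`. -/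
structure Hyp3 (k' : Type) {k : Type} [Field k] [Field k'] [Algebra k k'] (a b : k[X]) (n : ℕ) :
    Prop where
  three : (3 : k) ≠ 0
  hb : b ≠ 0
  hd : a ^ 3 - 27 * b ≠ 0
  han : a.natDegree ≤ n
  hsep : ∀ π : k[X], Irreducible π → π ∣ b * (a ^ 3 - 27 * b) → π.Separable
  hst : ∀ π : k[X], Irreducible π → π ∣ b * (a ^ 3 - 27 * b) → Stays k' π
  hcb : ∀ (u : k) (q : k[X]), b ≠ C u * q ^ 3
  hcd : ∀ (u : k) (q : k[X]), a ^ 3 - 27 * b ≠ C u * q ^ 3

theorem hyp_ne (hT : IsTower k k' K F) {a b : k[X]} {n : ℕ} (hG : Hyp3 k' a b n)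
    {aK bK : K} (haK : aK = algebraMap k[X] K a) (hbK : bK = algebraMap k[X] K b) :
    (3 : K) ≠ 0 ∧ bK ≠ 0 ∧ aK ^ 3 - 27 * bK ≠ 0 ∧ (∀ g : F, g ^ 3 ≠ algebraMap K F bK) ∧
      ∀ g : F, g ^ 3 ≠ algebraMap K F (aK ^ 3 - 27 * bK) := by
  haveI := hT.sep
  haveI := hT.fracK
  have hKF := hT.map
  have h3 := hG.three
  have injK := IsFractionRing.injective k[X] K
  have h3X : (3 : k[X]) ≠ 0 := by
    have : (3 : k[X]) = C 3 := by rw [map_ofNat]
    rw [this]
    exact C_ne_zero.2 h3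
  have h3K : (3 : K) ≠ 0 := by
    rw [← map_ofNat (algebraMap k[X] K) 3]
    intro h
    exact h3X (injK (by rw [h, map_zero]))
  have hbK0 : bK ≠ 0 := by
    rw [hbK, Ne, map_eq_zero_iff _ injK]; exact hG.hb
  have hdK : algebraMap k[X] K (a ^ 3 - 27 * b) = aK ^ 3 - 27 * bK := by
    rw [haK, hbK, map_sub, map_mul, map_pow, map_ofNat]
  have hdK0 : aK ^ 3 - 27 * bK ≠ 0 := by
    rw [← hdK, Ne, map_eq_zero_iff _ injK]; exact hG.hd
  refine ⟨h3K, hbK0, hdK0, ?_, ?_⟩
  · rw [hbK]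
    exact not_cube hKF h3 hG.hb (fun π h h' => hG.hsep π h (h'.mul_right _)) hG.hcb
  · rw [← hdK]
    exact not_cube hKF h3 hG.hd (fun π h h' => hG.hsep π h (h'.mul_left _)) hG.hcd

/-- **The Tate conjecture at 3** from complete first descents, with the condition at infinity. -/
theorem tate3i (hT : IsTower k k' K F) {a b : k[X]} {n : ℕ} (hG : Hyp3 k' a b n)
    {aK bK : K} (haK : aK = algebraMap k[X] K a) (hbK : bK = algebraMap k[X] K b)
    (oA : ∀ A : k[X], A ≠ 0 → (∀ π : k[X], Irreducible π → π ∣ A → π ∣ b) →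
      (b.natDegree = 3 * n → 3 ∣ A.natDegree) →
      ∃ (P : Pt (crv3 aK bK) K) (c : F), c ≠ 0 ∧
        algebraMap K F (algebraMap k[X] K A) = c ^ 3 * algebraMap K F (dd bK P))
    (oB : ∀ B : k[X], B ≠ 0 → (∀ π : k[X], Irreducible π → π ∣ B → π ∣ a ^ 3 - 27 * b) →
      ((a ^ 3 - 27 * b).natDegree = 3 * n → 3 ∣ B.natDegree) →
      ∃ (P : Pt (crv3 (3 * aK) (aK ^ 3 - 27 * bK)) K) (c : F), c ≠ 0 ∧
        algebraMap K F (algebraMap k[X] K B) =
          c ^ 3 * algebraMap K F (dd (aK ^ 3 - 27 * bK) P)) :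
    TateAt (F := F) 3 k' (crv3 aK bK) := by
  obtain ⟨h3K, hb0, hd0, hbs, hds⟩ := hyp_ne hT hG haK hbK
  have hE := isE (a := aK) (b := bK) h3K hb0 hd0 (Sep F)
  haveI := hT.sep
  haveI := hT.fracK
  haveI : IsSepClosed k' := IsSepClosure.sep_closed k
  haveI : IsSepClosure K (Sep F) := sepKΩ hT.map
  haveI : Algebra.IsSeparable K (Sep F) := IsSepClosure.separable
  haveI : IsGalois K (Sep F) := inferInstance
  have e3 : ∀ {X : Type} [AddCommGroup X] (H : X), 3 • H = H + H + H := by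
    intro X _ H
    rw [show (3 : ℕ) = 1 + 1 + 1 from rfl, add_smul, add_smul, one_smul]
  refine tate_of_div (fun X => ?_) fun c hc => ?_
  · obtain ⟨Y, hY⟩ := third hE X
    exact ⟨Y, by rw [e3, hY]⟩
  · obtain ⟨P, Q, H, -, -, h2, h3⟩ := sel3i (F := F) hT hG.three hG.hb hG.hd hG.han hG.hsep hG.hst
      hG.hcb hG.hcd haK hbK (GA := fun _ => True) (GB := fun _ => True) trivial
      (fun A h1 h2 h3 => by
        obtain ⟨P, c, hc, e⟩ := oA A h1 h2 h3
        exact ⟨P, c, trivial, hc, e⟩)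
      (Or.inr fun zK hzK B h1 h2 h3 => hpt_of h3K hb0 hd0 hzK (oB B h1 h2 h3))
      (c 1) (hc.tc.coc 1) (fun σ => by rw [← e3, hc.tc.mul 0 σ, hc.tc.zero]) (hc.loc 1)
      (inv_of_cls hc)
    exact ⟨P + Q, H, h2, h3⟩

end main

end Pool.Agent.N181.P3
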